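import Mathlib

open MeasureTheory ProbabilityTheory
open scoped ENNReal BigOperators

namespace Pool.Agent.Lib.MP_f93cde_pr

/-- A 3-uniform hypergraph with vertex set `Fin N`. -/
structure Hyper3 (N : ℕ) where
  /-- the set of hyperedges -/
  edges : Finset (Finset (Fin N))
  uniform : ∀ e ∈ edges, e.card = 3

variable {N : ℕ}

/-- The ball `B_r(v)`: `B_0(v) = {v}`, and `w ∈ B_{r+1}(v)` when `w ∈ B_r(v)` or some hyperedge
contains `w` and meets `B_r(v)`. -/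
def Hyper3.ball (G : Hyper3 N) : ℕ → Fin N → Finset (Fin N)
  | 0, v => {v}
  | r + 1, v => G.ball r v ∪
      Finset.univ.filter (fun w => ∃ e ∈ G.edges, w ∈ e ∧ ∃ u ∈ G.ball r v, u ∈ e)

/-- The two spin values `±1`. -/
def spin (b : Bool) : ℝ := if b then 1 else -1

/-- The Hamiltonian `H_J(σ) = ∑_e ρ(J_e) σ_e`, `σ_e = ∏_{i ∈ e} σ_i`. -/
def energy (G : Hyper3 N) (ρ : ℝ → ℝ) (J : G.edges → ℝ) (σ : Fin N → Bool) : ℝ :=
  ∑ e : G.edges, ρ (J e) * ∏ i ∈ e.1, spin (σ i)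

open scoped Classical in
/-- The unnormalised Gibbs weight at inverse temperature `β ∈ [0, ∞]`: `exp(β H_J(σ))` if `β < ∞`,
the indicator that `σ` maximises `H_J` if `β = ∞`. -/
noncomputable def weight (G : Hyper3 N) (ρ : ℝ → ℝ) (β : ℝ≥0∞) (J : G.edges → ℝ)
    (σ : Fin N → Bool) : ℝ :=
  if β = ⊤ then (if ∀ τ, energy G ρ J τ ≤ energy G ρ J σ then 1 else 0)
  else Real.exp (β.toReal * energy G ρ J σ)

/-- The site overlap `R(σ, τ) = N⁻¹ ∑_i σ_i τ_i`. -/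
noncomputable def overlap (σ τ : Fin N → Bool) : ℝ := (N : ℝ)⁻¹ * ∑ i, spin (σ i) * spin (τ i)

/-- `⟨R(σ, τ)²⟩` for independent `σ ~ G_{J,β}` and `τ ~ G_{J',β}`. -/
noncomputable def overlapSq (G : Hyper3 N) (ρ : ℝ → ℝ) (β : ℝ≥0∞) (J J' : G.edges → ℝ) : ℝ :=
  (∑ σ, ∑ τ, weight G ρ β J σ * weight G ρ β J' τ * overlap σ τ ^ 2) /
    ((∑ σ, weight G ρ β J σ) * ∑ τ, weight G ρ β J' τ)

/-- The law of the disorder `(J_e)_e`: i.i.d. standard Gaussian. -/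
noncomputable def disorder (G : Hyper3 N) : Measure (G.edges → ℝ) :=
  Measure.pi (fun _ => gaussianReal 0 1)

/-- `E ⟨R(σ, τ)²⟩_t` for the continuous perturbation `J(t) = e^{-t} J + √(1 - e^{-2t}) J'`. -/
noncomputable def meanCont (G : Hyper3 N) (ρ : ℝ → ℝ) (β : ℝ≥0∞) (t : ℝ) : ℝ :=
  ∫ J, ∫ J', overlapSq G ρ β J
    (fun e => Real.exp (-t) * J e + Real.sqrt (1 - Real.exp (-2 * t)) * J' e)
      ∂(disorder G) ∂(disorder G)

/-- The Bernoulli law with parameter `e^{-t}`. -/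
noncomputable def bern (t : ℝ) : Measure Bool :=
  ENNReal.ofReal (Real.exp (-t)) • Measure.dirac true +
    ENNReal.ofReal (1 - Real.exp (-t)) • Measure.dirac false

/-- `E ⟨R(σ, τ)²⟩_t` for the discrete perturbation: `J(t)_e = J_e` if `B_e = 1` and `J'_e`
otherwise, with `B_e` i.i.d. Bernoulli with parameter `e^{-t}`. -/
noncomputable def meanDisc (G : Hyper3 N) (ρ : ℝ → ℝ) (β : ℝ≥0∞) (t : ℝ) : ℝ :=
  ∫ J, ∫ J', ∫ b, overlapSq G ρ β J (fun e => if b e then J e else J' e)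
    ∂(Measure.pi (fun _ : G.edges => bern t)) ∂(disorder G) ∂(disorder G)

end Pool.Agent.Lib.MP_f93cde_pr
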