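import Mathlib
import Pool.Agent.Lib.MP_f93cde_pr.Defs

open scoped BigOperators

namespace Pool.Agent.Lib.MP_f93cde_pr

/-- All triples of diameter at most `3` on the path `Fin N`. -/
def win (N : ℕ) : Hyper3 N where
  edges := (Finset.univ.powersetCard 3).filter (fun e => ∀ x ∈ e, ∀ y ∈ e, (x : ℕ) ≤ y + 3)
  uniform := fun e he => (Finset.mem_powersetCard.1 (Finset.mem_filter.1 he).1).2

lemma mem_win {N : ℕ} (e : Finset (Fin N)) :
    e ∈ (win N).edges ↔ e.card = 3 ∧ ∀ x ∈ e, ∀ y ∈ e, (x : ℕ) ≤ y + 3 := by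
  simp [win, Finset.mem_powersetCard]

lemma ball_subset {N : ℕ} (r : ℕ) (v w : Fin N) (h : w ∈ (win N).ball r v) :
    (w : ℕ) ≤ v + 3 * r ∧ (v : ℕ) ≤ w + 3 * r := by
  induction r generalizing w with
  | zero =>
    simp only [Hyper3.ball, Finset.mem_singleton] at h
    subst h; simp
  | succ r ih =>
    simp only [Hyper3.ball, Finset.mem_union, Finset.mem_filter, Finset.mem_univ,
      true_and] at h
    rcases h with h | ⟨e, he, hwe, u, hu, hue⟩
    · have := ih w h; omega
    · have h1 := ih u hu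
      have h2 := ((mem_win e).1 he).2 w hwe u hue
      have h3 := ((mem_win e).1 he).2 u hue w hwe
      omega

lemma card_le_of_vals {N : ℕ} (A : Finset (Fin N)) (a b n : ℕ)
    (h : ∀ w ∈ A, a ≤ (w : ℕ) ∧ (w : ℕ) ≤ b) (hn : b + 1 - a ≤ n) : A.card ≤ n := by
  calc A.card = (A.map Fin.valEmbedding).card := (Finset.card_map _).symm
    _ ≤ (Finset.Icc a b).card := by
        refine Finset.card_le_card fun x hx => ?_
        rw [Finset.mem_map] at hx
        obtain ⟨w, hw, rfl⟩ := hx
        exact Finset.mem_Icc.2 (h w hw)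
    _ = b + 1 - a := Nat.card_Icc a b
    _ ≤ n := hn

lemma ball_card {N : ℕ} (r : ℕ) (hr : 1 ≤ r) (v : Fin N) :
    (((win N).ball r v).card : ℝ) ≤ 7 * (r : ℝ) ^ (1 : ℝ) := by
  have h : ((win N).ball r v).card ≤ 7 * r := by
    refine card_le_of_vals _ (v - 3 * r) (v + 3 * r) _ (fun w hw => ?_) (by omega)
    have := ball_subset r v w hw
    omega
  rw [Real.rpow_one]
  exact_mod_cast h

lemma edge_step {N : ℕ} (hN : 3 ≤ N) (u w : Fin N) (h : (w : ℕ) = u + 1 ∨ (u : ℕ) = w + 1) :
    ∃ e ∈ (win N).edges, w ∈ e ∧ u ∈ e := by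
  -- the third vertex
  obtain ⟨z, hzu, hzw, h1, h2, h3, h4⟩ : ∃ z : Fin N, z ≠ u ∧ z ≠ w ∧ (z : ℕ) ≤ u + 2 ∧
      (u : ℕ) ≤ z + 2 ∧ (z : ℕ) ≤ w + 2 ∧ (w : ℕ) ≤ z + 2 := by
    have hu := u.2
    have hw := w.2
    by_cases hmax : max (u : ℕ) w + 1 < N
    · refine ⟨⟨max (u : ℕ) w + 1, hmax⟩, ?_, ?_, ?_, ?_, ?_, ?_⟩
      · rw [Ne, Fin.ext_iff]; simp only; omega
      · rw [Ne, Fin.ext_iff]; simp only; omega
      all_goals simp only; omega
    · refine ⟨⟨min (u : ℕ) w - 1, by omega⟩, ?_, ?_, ?_, ?_, ?_, ?_⟩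
      · rw [Ne, Fin.ext_iff]; simp only; omega
      · rw [Ne, Fin.ext_iff]; simp only; omega
      all_goals simp only; omega
  have huw : u ≠ w := by
    rw [Ne, Fin.ext_iff]; omega
  refine ⟨{u, w, z}, (mem_win _).2 ⟨?_, ?_⟩, by simp, by simp⟩
  · rw [Finset.card_eq_three]
    exact ⟨u, w, z, huw, hzu.symm, hzw.symm, rfl⟩
  · intro x hx y hy
    simp only [Finset.mem_insert, Finset.mem_singleton] at hx hy
    rcases hx with rfl | rfl | rfl <;> rcases hy with rfl | rfl | rfl <;> omega

lemma ball_connected {N : ℕ} (hN : 3 ≤ N) (v : Fin N) (k : ℕ) :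
    ∀ w : Fin N, ((w : ℕ) = v + k ∨ (v : ℕ) = w + k) → w ∈ (win N).ball k v := by
  induction k with
  | zero =>
    intro w h
    have : w = v := by rw [Fin.ext_iff]; omega
    simp [Hyper3.ball, this]
  | succ k ih =>
    intro w h
    simp only [Hyper3.ball, Finset.mem_union, Finset.mem_filter, Finset.mem_univ, true_and]
    right
    rcases h with h | h
    · have hw := w.2
      let u : Fin N := ⟨v + k, by omega⟩
      obtain ⟨e, he, hwe, hue⟩ := edge_step hN u w (Or.inl (by simp only [u]; omega))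
      exact ⟨e, he, hwe, u, ih u (Or.inl rfl), hue⟩
    · have hv := v.2
      let u : Fin N := ⟨w + 1, by omega⟩
      obtain ⟨e, he, hwe, hue⟩ := edge_step hN u w (Or.inr rfl)
      exact ⟨e, he, hwe, u, ih u (Or.inr (by simp only [u]; omega)), hue⟩

/-- The block of four consecutive vertices attached to `i`. -/
def blk {N : ℕ} (i : Fin N) : Finset (Fin N) :=
  Finset.univ.filter (fun v : Fin N => min (i : ℕ) (N - 4) ≤ v ∧ (v : ℕ) < min (i : ℕ) (N - 4) + 4)

lemma mem_blk_self {N : ℕ} (hN : 4 ≤ N) (i : Fin N) : i ∈ blk i := by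
  have := i.2
  simp only [blk, Finset.mem_filter, Finset.mem_univ, true_and]
  omega

lemma blk_card {N : ℕ} (hN : 4 ≤ N) (i : Fin N) : (blk i).card = 4 := by
  have hi := i.2
  calc (blk i).card = ((blk i).map Fin.valEmbedding).card := (Finset.card_map _).symm
    _ = (Finset.Ico (min (i : ℕ) (N - 4)) (min (i : ℕ) (N - 4) + 4)).card := by
        congr 1
        ext x
        simp only [blk, Finset.mem_map, Finset.mem_filter, Finset.mem_univ, true_and,
          Fin.valEmbedding_apply, Finset.mem_Ico]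
        constructor
        · rintro ⟨v, hv, rfl⟩; exact hv
        · intro hx
          exact ⟨⟨x, by omega⟩, hx, rfl⟩
    _ = 4 := by simp

lemma blk_erase_mem {N : ℕ} (hN : 4 ≤ N) (i : Fin N) (x : Fin N) (hx : x ∈ blk i) :
    (blk i).erase x ∈ (win N).edges := by
  rw [mem_win]
  refine ⟨by rw [Finset.card_erase_of_mem hx, blk_card hN], fun a ha b hb => ?_⟩
  have ha' := Finset.mem_of_mem_erase ha
  have hb' := Finset.mem_of_mem_erase hb
  simp only [blk, Finset.mem_filter, Finset.mem_univ, true_and] at ha' hb'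
  omega

lemma touching_card {N : ℕ} (i : Fin N) :
    (Finset.univ.filter (fun e : (win N).edges => (e.1 ∩ blk i).Nonempty)).card ≤ 1024 := by
  set s := min (i : ℕ) (N - 4) with hs
  let U : Finset (Fin N) := Finset.univ.filter (fun v : Fin N => s ≤ v + 3 ∧ (v : ℕ) ≤ s + 6)
  have hU : U.card ≤ 10 := by
    refine card_le_of_vals _ (s - 3) (s + 6) _ (fun w hw => ?_) (by omega)
    simp only [U, Finset.mem_filter, Finset.mem_univ, true_and] at hw
    omega
  calc (Finset.univ.filter (fun e : (win N).edges => (e.1 ∩ blk i).Nonempty)).card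
      ≤ U.powerset.card := by
        refine Finset.card_le_card_of_injOn (fun e => e.1) ?_ (fun a _ b _ h => Subtype.ext h)
        intro e he
        have he' : (e.1 ∩ blk i).Nonempty := by simpa using he
        obtain ⟨x, hx⟩ := he'
        rw [Finset.mem_inter] at hx
        refine Finset.mem_coe.2 (Finset.mem_powerset.2 fun y hy => ?_)
        have h1 := ((mem_win e.1).1 e.2).2 x hx.1 y hy
        have h2 := ((mem_win e.1).1 e.2).2 y hy x hx.1
        have h3 := hx.2
        simp only [blk, Finset.mem_filter, Finset.mem_univ, true_and] at h3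
        simp only [U, Finset.mem_filter, Finset.mem_univ, true_and]
        omega
    _ = 2 ^ U.card := Finset.card_powerset _
    _ ≤ 2 ^ 10 := Nat.pow_le_pow_right (by norm_num) hU
    _ = 1024 := by norm_num

end Pool.Agent.Lib.MP_f93cde_pr
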