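import Mathlib

open MeasureTheory ProbabilityTheory
open scoped ENNReal BigOperators

namespace Pool.Agent.Lib.MP_f93cde_pr

variable {ι : Type*} [Fintype ι]

/-- The standard Gaussian law on `ι → ℝ`. -/
noncomputable abbrev gP (ι : Type*) [Fintype ι] : Measure (ι → ℝ) :=
  Measure.pi (fun _ => gaussianReal 0 1)

instance : IsGaussian (gP ι) := by
  have h : (gP ι).map (EuclideanSpace.equiv ι ℝ).symm = stdGaussian (EuclideanSpace ℝ ι) :=
    map_pi_eq_stdGaussian
  rw [← isGaussian_map_equiv_iff (EuclideanSpace.equiv ι ℝ).symm, h]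
  infer_instance

lemma gP_map_neg : (gP ι).map (fun x => -x) = gP ι := by
  have h := Measure.pi_map_pi (μ := fun _ : ι => gaussianReal 0 1)
    (f := fun _ : ι => fun x : ℝ => -x) (fun _ => by fun_prop)
  have e : (fun x : ι → ℝ => -x) = fun x i => -(x i) := by funext x i; rfl
  rw [e]
  unfold gP
  rw [h]
  congr 1
  funext i
  rw [gaussianReal_map_neg]; simp

lemma gP_mean : (gP ι)[id] = 0 := by
  have h1 : ∫ x, x ∂(gP ι) = ∫ x, -x ∂(gP ι) := by
    conv_lhs => rw [← gP_map_neg (ι := ι)]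
    rw [integral_map (by fun_prop) (by fun_prop)]
  rw [integral_neg] at h1
  have h2 : (2 : ℝ) • ∫ x, x ∂(gP ι) = 0 := by
    rw [two_smul]
    nth_rewrite 1 [h1]
    simp
  have h3 := (smul_eq_zero.1 h2).resolve_left (by norm_num)
  simpa using h3

lemma rot_preserving (c s : ℝ) (h : c ^ 2 + s ^ 2 = 1) (hs : 0 ≤ s) :
    MeasurePreserving (fun p : (ι → ℝ) × (ι → ℝ) => (c • p.1 + s • p.2, (-s) • p.1 + c • p.2))
      ((gP ι).prod (gP ι)) ((gP ι).prod (gP ι)) := by
  have h1 := IsGaussian.map_rotation_eq_self (μ := gP ι) gP_mean (Real.arccos c)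
  have hc : Real.cos (Real.arccos c) = c := by
    apply Real.cos_arccos <;> nlinarith
  have hsin : Real.sin (Real.arccos c) = s := by
    rw [Real.sin_arccos, show 1 - c ^ 2 = s ^ 2 by linarith, Real.sqrt_sq hs]
  refine ⟨by fun_prop, ?_⟩
  have e : (fun p : (ι → ℝ) × (ι → ℝ) => (c • p.1 + s • p.2, (-s) • p.1 + c • p.2)) =
      ⇑(ContinuousLinearMap.rotation (E := ι → ℝ) (Real.arccos c)) := by
    funext p
    rw [ContinuousLinearMap.rotation_apply, hc, hsin]
  rw [e, h1]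

lemma marg_preserving (c s : ℝ) (h : c ^ 2 + s ^ 2 = 1) (hs : 0 ≤ s) :
    MeasurePreserving (fun p : (ι → ℝ) × (ι → ℝ) => c • p.1 + s • p.2)
      ((gP ι).prod (gP ι)) (gP ι) :=
  measurePreserving_fst.comp (rot_preserving c s h hs)

lemma bdd_integrable {Ω : Type*} [MeasurableSpace Ω] {μ : Measure Ω} [IsFiniteMeasure μ]
    {f : Ω → ℝ} (hf : Measurable f) (C : ℝ) (h : ∀ x, |f x| ≤ C) : Integrable f μ :=
  Integrable.of_bound hf.aestronglyMeasurable C (ae_of_all _ fun x => by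
    rw [Real.norm_eq_abs]; exact h x)

/-- The semigroup identity for the continuous perturbation. -/
theorem cont_identity (m : (ι → ℝ) → ℝ) (hm : Measurable m) (hb : ∀ J, |m J| ≤ 1) (a b : ℝ)
    (ha : 0 ≤ a) (hb0 : 0 ≤ b) (hab : a ^ 2 + b ^ 2 = 1) :
    ∫ J, ∫ J', m J * m (fun e => a ^ 2 * J e + Real.sqrt (1 - (a ^ 2) ^ 2) * J' e) ∂(gP ι) ∂(gP ι) =
      ∫ K, (∫ ξ, m (fun e => a * K e + b * ξ e) ∂(gP ι)) ^ 2 ∂(gP ι) := by
  have ha1 : a ^ 2 ≤ 1 := by nlinarith [sq_nonneg b]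
  have h4 : 0 ≤ 1 - (a ^ 2) ^ 2 := by nlinarith [sq_nonneg a]
  -- right-hand side as a triple integral
  have key1 : ∀ K : ι → ℝ, (∫ ξ, m (fun e => a * K e + b * ξ e) ∂(gP ι)) ^ 2 =
      ∫ ξ, ∫ ξ', m (a • K + b • ξ) * m (a • K + b • ξ') ∂(gP ι) ∂(gP ι) := by
    intro K
    rw [sq]
    simp_rw [integral_const_mul, integral_mul_const]
    rfl
  simp_rw [key1]
  let F : (ι → ℝ) × (ι → ℝ) → ℝ := fun p =>
    ∫ ξ', m p.1 * m (a • (a • p.1 - b • p.2) + b • ξ') ∂(gP ι)
  have hmeas3 : Measurable (fun q : ((ι → ℝ) × (ι → ℝ)) × (ι → ℝ) =>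
      m q.1.1 * m (a • (a • q.1.1 - b • q.1.2) + b • q.2)) := by
    refine (hm.comp (by fun_prop)).mul (hm.comp (by fun_prop))
  have hF : Measurable F := by
    exact (hmeas3.stronglyMeasurable.integral_prod_right').measurable
  have hFb : ∀ p, |F p| ≤ 1 := by
    intro p
    calc |F p| ≤ ∫ ξ', |m p.1 * m (a • (a • p.1 - b • p.2) + b • ξ')| ∂(gP ι) :=
          abs_integral_le_integral_abs
      _ ≤ ∫ _ξ', (1 : ℝ) ∂(gP ι) := by
          refine integral_mono_of_nonneg (ae_of_all _ fun _ => abs_nonneg _) (integrable_const _)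
            (ae_of_all _ fun ξ' => ?_)
          simp only [abs_mul]
          exact mul_le_one₀ (hb _) (abs_nonneg _) (hb _)
      _ = 1 := by simp
  have hFint : Integrable F ((gP ι).prod (gP ι)) := bdd_integrable hF 1 hFb
  have hrot := rot_preserving (ι := ι) a b hab hb0
  have e1 : ∫ K, ∫ ξ, ∫ ξ', m (a • K + b • ξ) * m (a • K + b • ξ') ∂(gP ι) ∂(gP ι) ∂(gP ι) =
      ∫ p, F p ∂((gP ι).prod (gP ι)) := by
    rw [← hrot.map_eq, integral_map hrot.measurable.aemeasurable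
      (hF.aestronglyMeasurable), integral_prod]
    · refine integral_congr_ae (ae_of_all _ fun K => ?_)
      refine integral_congr_ae (ae_of_all _ fun ξ => ?_)
      have : a • (a • K + b • ξ) - b • (-b • K + a • ξ) = K := by
        have : a • (a • K + b • ξ) - b • (-b • K + a • ξ) = (a ^ 2 + b ^ 2) • K := by
          funext e; simp only [Pi.add_apply, Pi.sub_apply, Pi.smul_apply, smul_eq_mul]; ring
        rw [this, hab, one_smul]
      simp only [F, this]
    · exact hrot.integrable_comp hFint.aestronglyMeasurable |>.2 hFint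
  rw [e1, integral_prod _ hFint]
  refine integral_congr_ae (ae_of_all _ fun J => ?_)
  -- now integrate out the two remaining Gaussians
  obtain ⟨c1, s1, hcs, hs1, hc, hs⟩ : ∃ c1 s1 : ℝ, c1 ^ 2 + s1 ^ 2 = 1 ∧ 0 ≤ s1 ∧
      Real.sqrt (1 - (a ^ 2) ^ 2) * c1 = -(a * b) ∧ Real.sqrt (1 - (a ^ 2) ^ 2) * s1 = b := by
    rcases eq_or_lt_of_le h4 with h0 | hpos
    · have hb2 : b = 0 := by
        have h5 : (b ^ 2) * (1 + a ^ 2) = 0 := by
          have : b ^ 2 = 1 - a ^ 2 := by linarith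
          rw [this]; nlinarith
        rcases mul_eq_zero.1 h5 with h6 | h6
        · exact pow_eq_zero_iff (two_ne_zero) |>.1 h6
        · nlinarith [sq_nonneg a]
      refine ⟨1, 0, by norm_num, le_rfl, ?_, ?_⟩
      · rw [← h0, hb2]; simp
      · rw [hb2]; simp
    · have hsq := Real.sqrt_pos.2 hpos
      refine ⟨-(a * b) / Real.sqrt (1 - (a ^ 2) ^ 2), b / Real.sqrt (1 - (a ^ 2) ^ 2), ?_,
        by positivity, by rw [mul_comm, div_mul_cancel₀ _ hsq.ne'],
        by rw [mul_comm, div_mul_cancel₀ _ hsq.ne']⟩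
      rw [div_pow, div_pow, Real.sq_sqrt h4, ← add_div, div_eq_one_iff_eq hpos.ne']
      have : b ^ 2 = 1 - a ^ 2 := by linarith
      rw [neg_sq, mul_pow, this]; ring
  have hmar := marg_preserving (ι := ι) c1 s1 hcs hs1
  have hg : Measurable (fun g : ι → ℝ => m J *
      m (fun e => a ^ 2 * J e + Real.sqrt (1 - (a ^ 2) ^ 2) * g e)) :=
    measurable_const.mul (hm.comp (by fun_prop))
  have hgb : ∀ g : ι → ℝ, |m J *
      m (fun e => a ^ 2 * J e + Real.sqrt (1 - (a ^ 2) ^ 2) * g e)| ≤ 1 := by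
    intro g; rw [abs_mul]; exact mul_le_one₀ (hb _) (abs_nonneg _) (hb _)
  have hgi : Integrable (fun g : ι → ℝ => m J *
      m (fun e => a ^ 2 * J e + Real.sqrt (1 - (a ^ 2) ^ 2) * g e)) (gP ι) :=
    bdd_integrable hg 1 hgb
  change ∫ J', m J * m (fun e => a ^ 2 * J e + Real.sqrt (1 - (a ^ 2) ^ 2) * J' e) ∂(gP ι) =
    ∫ q, F (J, q) ∂(gP ι)
  rw [← hmar.map_eq, integral_map hmar.measurable.aemeasurable hg.aestronglyMeasurable,
    integral_prod]
  · rw [hmar.map_eq]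
    refine integral_congr_ae (ae_of_all _ fun q => ?_)
    refine integral_congr_ae (ae_of_all _ fun ξ => ?_)
    simp only
    congr 2
    funext e
    simp only [Pi.add_apply, Pi.sub_apply, Pi.smul_apply, smul_eq_mul]
    have h5 : Real.sqrt (1 - (a ^ 2) ^ 2) * (c1 * q e + s1 * ξ e) =
      (Real.sqrt (1 - (a ^ 2) ^ 2) * c1) * q e + (Real.sqrt (1 - (a ^ 2) ^ 2) * s1) * ξ e := by ring
    rw [h5, hc, hs]; ring
  · exact hmar.integrable_comp hgi.aestronglyMeasurable |>.2 hgi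

end Pool.Agent.Lib.MP_f93cde_pr
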