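import Mathlib
import Pool.Agent.Lib.MP_f93cde_pr.Defs

open MeasureTheory ProbabilityTheory
open scoped ENNReal BigOperators

namespace Pool.Agent.Lib.MP_f93cde_pr

variable {N : ℕ}

lemma spin_mul_self (b : Bool) : spin b * spin b = 1 := by
  cases b <;> simp [spin]

lemma abs_spin (b : Bool) : |spin b| = 1 := by
  cases b <;> simp [spin]

lemma spin_eq (b : Bool) : spin b = 1 ∨ spin b = -1 := by
  cases b <;> simp [spin]

/-- The product of spins over a set. -/
def sp (e : Finset (Fin N)) (σ : Fin N → Bool) : ℝ := ∏ i ∈ e, spin (σ i)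

lemma abs_sp (e : Finset (Fin N)) (σ : Fin N → Bool) : |sp e σ| = 1 := by
  unfold sp; rw [Finset.abs_prod]; simp [abs_spin]

lemma sp_mul_self (e : Finset (Fin N)) (σ : Fin N → Bool) : sp e σ * sp e σ = 1 := by
  rw [← abs_mul_abs_self, abs_sp]; norm_num

lemma sp_eq (e : Finset (Fin N)) (σ : Fin N → Bool) : sp e σ = 1 ∨ sp e σ = -1 := by
  have h := sp_mul_self e σ
  exact mul_self_eq_one_iff.1 h

lemma sp_le_one (e : Finset (Fin N)) (σ : Fin N → Bool) : sp e σ ≤ 1 := by
  rcases sp_eq e σ with h | h <;> rw [h] <;> norm_num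

lemma weight_nonneg (G : Hyper3 N) (ρ : ℝ → ℝ) (β : ℝ≥0∞) (J : G.edges → ℝ)
    (σ : Fin N → Bool) : 0 ≤ weight G ρ β J σ := by
  unfold weight
  split_ifs
  · norm_num
  · norm_num
  · exact (Real.exp_pos _).le

lemma Z_pos (G : Hyper3 N) (ρ : ℝ → ℝ) (β : ℝ≥0∞) (J : G.edges → ℝ) :
    0 < ∑ σ, weight G ρ β J σ := by
  obtain ⟨σ, -, hσ⟩ := Finset.exists_max_image (Finset.univ : Finset (Fin N → Bool))
    (energy G ρ J) ⟨fun _ => true, Finset.mem_univ _⟩
  refine Finset.sum_pos' (fun σ _ => weight_nonneg G ρ β J σ) ⟨σ, Finset.mem_univ _, ?_⟩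
  unfold weight
  split_ifs with h1 h2
  · norm_num
  · exact absurd (fun τ => hσ τ (Finset.mem_univ _)) h2
  · exact Real.exp_pos _

/-- The magnetisation of the site `i`. -/
noncomputable def mag (G : Hyper3 N) (ρ : ℝ → ℝ) (β : ℝ≥0∞) (i : Fin N) (J : G.edges → ℝ) : ℝ :=
  (∑ σ, weight G ρ β J σ * spin (σ i)) / ∑ σ, weight G ρ β J σ

lemma abs_mag_le (G : Hyper3 N) (ρ : ℝ → ℝ) (β : ℝ≥0∞) (i : Fin N) (J : G.edges → ℝ) :
    |mag G ρ β i J| ≤ 1 := by
  unfold mag
  rw [abs_div, abs_of_pos (Z_pos G ρ β J), div_le_one (Z_pos G ρ β J)]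
  refine (Finset.abs_sum_le_sum_abs _ _).trans (Finset.sum_le_sum fun σ _ => ?_)
  rw [abs_mul, abs_spin, mul_one, abs_of_nonneg (weight_nonneg _ _ _ _ _)]

/-- The overlap square dominates affine functions of the mean overlap. -/
lemma overlapSq_ge (G : Hyper3 N) (ρ : ℝ → ℝ) (β : ℝ≥0∞) (J J' : G.edges → ℝ) (c : ℝ) :
    2 * c * ((N : ℝ)⁻¹ * ∑ i, mag G ρ β i J * mag G ρ β i J') - c ^ 2 ≤
      overlapSq G ρ β J J' := by
  have hZ := Z_pos G ρ β J
  have hZ' := Z_pos G ρ β J'
  unfold overlapSq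
  rw [le_div_iff₀ (mul_pos hZ hZ')]
  have e1 : ∑ i, mag G ρ β i J * mag G ρ β i J' =
      (∑ σ, ∑ τ, weight G ρ β J σ * weight G ρ β J' τ * ∑ i, spin (σ i) * spin (τ i)) /
        ((∑ σ, weight G ρ β J σ) * ∑ τ, weight G ρ β J' τ) := by
    rw [eq_div_iff (mul_pos hZ hZ').ne', Finset.sum_mul]
    have : ∀ i, mag G ρ β i J * mag G ρ β i J' *
        ((∑ σ, weight G ρ β J σ) * ∑ τ, weight G ρ β J' τ) =
        ∑ σ, ∑ τ, weight G ρ β J σ * weight G ρ β J' τ * (spin (σ i) * spin (τ i)) := by
      intro i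
      unfold mag
      rw [show ∀ a b z z' : ℝ, a / z * (b / z') * (z * z') = (a / z * z) * (b / z' * z') by
        intros; ring, div_mul_cancel₀ _ hZ.ne', div_mul_cancel₀ _ hZ'.ne', Finset.sum_mul_sum]
      refine Finset.sum_congr rfl fun σ _ => Finset.sum_congr rfl fun τ _ => ?_
      ring
    simp_rw [this]
    rw [Finset.sum_comm]
    refine Finset.sum_congr rfl fun σ _ => ?_
    rw [Finset.sum_comm]
    refine Finset.sum_congr rfl fun τ _ => ?_
    rw [Finset.mul_sum]
  have e2 : (∑ σ, weight G ρ β J σ) * ∑ τ, weight G ρ β J' τ =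
      ∑ σ, ∑ τ, weight G ρ β J σ * weight G ρ β J' τ := Finset.sum_mul_sum _ _ _ _
  rw [e1, sub_mul]
  have e3 : 2 * c * ((N : ℝ)⁻¹ * ((∑ σ, ∑ τ, weight G ρ β J σ * weight G ρ β J' τ *
      ∑ i, spin (σ i) * spin (τ i)) / ((∑ σ, weight G ρ β J σ) * ∑ τ, weight G ρ β J' τ))) *
      ((∑ σ, weight G ρ β J σ) * ∑ τ, weight G ρ β J' τ) =
      ∑ σ, ∑ τ, weight G ρ β J σ * weight G ρ β J' τ * (2 * c * overlap σ τ) := by
    rw [show ∀ a b x z : ℝ, a * (b * (x / z)) * z = a * b * (x / z * z) by intros; ring,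
      div_mul_cancel₀ _ (mul_pos hZ hZ').ne', Finset.mul_sum]
    refine Finset.sum_congr rfl fun σ _ => ?_
    rw [Finset.mul_sum]
    refine Finset.sum_congr rfl fun τ _ => ?_
    unfold overlap; ring
  rw [e3, e2, Finset.mul_sum, ← Finset.sum_sub_distrib]
  refine Finset.sum_le_sum fun σ _ => ?_
  rw [Finset.mul_sum, ← Finset.sum_sub_distrib]
  refine Finset.sum_le_sum fun τ _ => ?_
  have hw : 0 ≤ weight G ρ β J σ * weight G ρ β J' τ :=
    mul_nonneg (weight_nonneg _ _ _ _ _) (weight_nonneg _ _ _ _ _)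
  nlinarith [mul_nonneg hw (sq_nonneg (overlap σ τ - c))]

lemma overlapSq_nonneg (G : Hyper3 N) (ρ : ℝ → ℝ) (β : ℝ≥0∞) (J J' : G.edges → ℝ) :
    0 ≤ overlapSq G ρ β J J' := by
  have := overlapSq_ge G ρ β J J' 0
  simpa using this

lemma abs_overlap_le (σ τ : Fin N → Bool) : |overlap σ τ| ≤ 1 := by
  unfold overlap
  rw [abs_mul, abs_inv, Nat.abs_cast]
  rcases Nat.eq_zero_or_pos N with h | h
  · subst h; simp
  · have hN : (0 : ℝ) < N := by exact_mod_cast h
    rw [inv_mul_le_iff₀ hN, mul_one]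
    refine (Finset.abs_sum_le_sum_abs _ _).trans ?_
    simp [abs_mul, abs_spin]

lemma overlapSq_le_one (G : Hyper3 N) (ρ : ℝ → ℝ) (β : ℝ≥0∞) (J J' : G.edges → ℝ) :
    overlapSq G ρ β J J' ≤ 1 := by
  have hZ := Z_pos G ρ β J
  have hZ' := Z_pos G ρ β J'
  unfold overlapSq
  rw [div_le_one (mul_pos hZ hZ'), Finset.sum_mul_sum]
  refine Finset.sum_le_sum fun σ _ => Finset.sum_le_sum fun τ _ => ?_
  have hw : 0 ≤ weight G ρ β J σ * weight G ρ β J' τ :=
    mul_nonneg (weight_nonneg _ _ _ _ _) (weight_nonneg _ _ _ _ _)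
  have h1 : overlap σ τ ^ 2 ≤ 1 := by
    rw [← sq_abs]; exact pow_le_one₀ (abs_nonneg _) (abs_overlap_le σ τ)
  calc _ ≤ weight G ρ β J σ * weight G ρ β J' τ * 1 := mul_le_mul_of_nonneg_left h1 hw
    _ = _ := mul_one _

/-! ### Measurability -/

lemma measurable_energy (G : Hyper3 N) {ρ : ℝ → ℝ} (hρ : Measurable ρ) (σ : Fin N → Bool) :
    Measurable (fun J => energy G ρ J σ) := by
  unfold energy
  refine Finset.measurable_sum _ fun e _ => ?_
  exact (hρ.comp (measurable_pi_apply e)).mul_const _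

lemma measurable_weight (G : Hyper3 N) {ρ : ℝ → ℝ} (hρ : Measurable ρ) (β : ℝ≥0∞)
    (σ : Fin N → Bool) : Measurable (fun J => weight G ρ β J σ) := by
  unfold weight
  by_cases h : β = ⊤
  · simp only [h, if_true]
    have hs : MeasurableSet {J : G.edges → ℝ | ∀ τ, energy G ρ J τ ≤ energy G ρ J σ} := by
      have e : {J : G.edges → ℝ | ∀ τ, energy G ρ J τ ≤ energy G ρ J σ} =
          ⋂ τ, {J : G.edges → ℝ | energy G ρ J τ ≤ energy G ρ J σ} := by ext; simp
      rw [e]
      exact MeasurableSet.iInter fun τ =>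
        measurableSet_le (measurable_energy G hρ τ) (measurable_energy G hρ σ)
    exact Measurable.ite hs measurable_const measurable_const
  · simp only [h, if_false]
    exact ((measurable_energy G hρ σ).const_mul _).exp

lemma measurable_mag (G : Hyper3 N) {ρ : ℝ → ℝ} (hρ : Measurable ρ) (β : ℝ≥0∞) (i : Fin N) :
    Measurable (mag G ρ β i) := by
  unfold mag
  exact (Finset.measurable_sum _ fun σ _ => (measurable_weight G hρ β σ).mul_const _).div
    (Finset.measurable_sum _ fun σ _ => measurable_weight G hρ β σ)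

lemma measurable_overlapSq (G : Hyper3 N) {ρ : ℝ → ℝ} (hρ : Measurable ρ) (β : ℝ≥0∞) :
    Measurable (fun p : (G.edges → ℝ) × (G.edges → ℝ) => overlapSq G ρ β p.1 p.2) := by
  unfold overlapSq
  have h1 : ∀ σ, Measurable (fun p : (G.edges → ℝ) × (G.edges → ℝ) => weight G ρ β p.1 σ) :=
    fun σ => (measurable_weight G hρ β σ).comp measurable_fst
  have h2 : ∀ σ, Measurable (fun p : (G.edges → ℝ) × (G.edges → ℝ) => weight G ρ β p.2 σ) :=
    fun σ => (measurable_weight G hρ β σ).comp measurable_snd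
  refine Measurable.div ?_ ((Finset.measurable_sum _ fun σ _ => h1 σ).mul
    (Finset.measurable_sum _ fun σ _ => h2 σ))
  exact Finset.measurable_sum _ fun σ _ => Finset.measurable_sum _ fun τ _ =>
    ((h1 σ).mul (h2 τ)).mul_const _

/-! ### The pointwise bound -/

section pointwise

variable (G : Hyper3 N) (W : Finset (Fin N)) (i : Fin N)

/-- The three hyperedges of the block containing `i`. -/
def inS (e : Finset (Fin N)) : Prop := ∃ x ∈ W, x ≠ i ∧ e = W.erase x

open scoped Classical in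
/-- The total strength of the other hyperedges touching the block. -/
noncomputable def out (J : G.edges → ℝ) : ℝ :=
  ∑ e : G.edges, if ¬ inS W i e.1 ∧ (e.1 ∩ W).Nonempty then |J e| else 0

/-- Set all the spins of the block to `+1`. -/
def allPlus (σ : Fin N → Bool) : Fin N → Bool := fun v => if v ∈ W then true else σ v

lemma sp_erase {x : Fin N} (hx : x ∈ W) (σ : Fin N → Bool) :
    sp (W.erase x) σ = sp W σ * spin (σ x) := by
  unfold sp
  rw [← Finset.mul_prod_erase W _ hx, mul_comm (spin (σ x)), mul_assoc, spin_mul_self, mul_one]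

lemma exists_bad_edge (hi : i ∈ W) (hW : W.card = 4) (σ : Fin N → Bool) (hσ : σ i = false) :
    ∃ x ∈ W, x ≠ i ∧ sp (W.erase x) σ = -1 := by
  by_contra hcon
  push Not at hcon
  have h1 : ∀ x ∈ W.erase i, sp (W.erase x) σ = 1 := by
    intro x hx
    rw [Finset.mem_erase] at hx
    rcases sp_eq (W.erase x) σ with h | h
    · exact h
    · exact absurd h (hcon x hx.2 hx.1)
  have h2 : ∏ x ∈ W.erase i, sp (W.erase x) σ = 1 := Finset.prod_eq_one h1
  have h3 : ∏ x ∈ W.erase i, sp (W.erase x) σ = spin (σ i) := by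
    have : ∀ x ∈ W.erase i, sp (W.erase x) σ = sp W σ * spin (σ x) := fun x hx =>
      sp_erase W (Finset.mem_of_mem_erase hx) σ
    rw [Finset.prod_congr rfl this, Finset.prod_mul_distrib, Finset.prod_const,
      Finset.card_erase_of_mem hi, hW]
    change sp W σ ^ 3 * sp (W.erase i) σ = _
    rw [sp_erase W hi]
    have := sp_mul_self W σ
    calc sp W σ ^ 3 * (sp W σ * spin (σ i)) = (sp W σ * sp W σ) * (sp W σ * sp W σ) * spin (σ i) := by
          ring
      _ = spin (σ i) := by rw [this]; ring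
  rw [h3, hσ] at h2
  norm_num [spin] at h2

lemma sp_allPlus_of_subset {e : Finset (Fin N)} (h : e ⊆ W) (σ : Fin N → Bool) :
    sp e (allPlus W σ) = 1 := by
  unfold sp
  refine Finset.prod_eq_one fun j hj => ?_
  simp [allPlus, h hj, spin]

lemma sp_allPlus_of_disjoint {e : Finset (Fin N)} (h : ¬ (e ∩ W).Nonempty) (σ : Fin N → Bool) :
    sp e (allPlus W σ) = sp e σ := by
  unfold sp
  refine Finset.prod_congr rfl fun j hj => ?_
  have : j ∉ W := fun hjW => h ⟨j, Finset.mem_inter.2 ⟨hj, hjW⟩⟩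
  simp [allPlus, this]

lemma energy_gap (hi : i ∈ W) (hW : W.card = 4)
    (hS : ∀ x ∈ W, x ≠ i → W.erase x ∈ G.edges) (J : G.edges → ℝ) (L : ℝ) (hL : 0 ≤ L)
    (hJ : ∀ e : G.edges, inS W i e.1 → L + out G W i J ≤ J e) (σ : Fin N → Bool)
    (hσ : σ i = false) :
    energy G id J σ + 2 * L ≤ energy G id J (allPlus W σ) := by
  classical
  obtain ⟨x, hxW, hxi, hx⟩ := exists_bad_edge W i hi hW σ hσ
  have hout : 0 ≤ out G W i J := by
    unfold out
    refine Finset.sum_nonneg fun e _ => ?_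
    split_ifs
    · exact abs_nonneg _
    · exact le_rfl
  set ex : G.edges := ⟨W.erase x, hS x hxW hxi⟩ with hex
  have hexS : inS W i ex.1 := ⟨x, hxW, hxi, rfl⟩
  have hterm : ∀ e : G.edges,
      (if e = ex then 2 * J ex else 0) -
        2 * (if ¬ inS W i e.1 ∧ (e.1 ∩ W).Nonempty then |J e| else 0) ≤
      J e * sp e.1 (allPlus W σ) - J e * sp e.1 σ := by
    intro e
    by_cases heS : inS W i e.1
    · have hsub : e.1 ⊆ W := by
        obtain ⟨y, _, _, hy⟩ := heS
        rw [hy]; exact Finset.erase_subset _ _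
      have hJe : 0 ≤ J e := by
        have := hJ e heS; linarith
      rw [sp_allPlus_of_subset W hsub]
      simp only [heS, not_true_eq_false, false_and, if_false, mul_zero, sub_zero]
      by_cases hee : e = ex
      · subst hee
        rw [if_pos rfl]
        have : sp ex.1 σ = -1 := hx
        rw [this]; linarith
      · rw [if_neg hee]
        have := sp_le_one e.1 σ
        nlinarith
    · have hee : e ≠ ex := fun h => heS (h ▸ hexS)
      rw [if_neg hee]
      by_cases hne : (e.1 ∩ W).Nonempty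
      · rw [if_pos ⟨heS, hne⟩]
        have h1 := abs_sp e.1 (allPlus W σ)
        have h2 := abs_sp e.1 σ
        have h3 : |J e * sp e.1 (allPlus W σ) - J e * sp e.1 σ| ≤ 2 * |J e| := by
          calc |J e * sp e.1 (allPlus W σ) - J e * sp e.1 σ|
              ≤ |J e * sp e.1 (allPlus W σ)| + |J e * sp e.1 σ| := abs_sub _ _
            _ = 2 * |J e| := by rw [abs_mul, abs_mul, h1, h2]; ring
        have := (abs_le.1 h3).1
        linarith
      · rw [if_neg (fun h => hne h.2), sp_allPlus_of_disjoint W hne]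
        simp
  have hsum := Finset.sum_le_sum (s := Finset.univ) fun e (_ : e ∈ Finset.univ) => hterm e
  rw [Finset.sum_sub_distrib, Finset.sum_sub_distrib, ← Finset.mul_sum,
    Finset.sum_ite_eq' Finset.univ ex] at hsum
  simp only [Finset.mem_univ, if_true] at hsum
  have h1 : energy G id J (allPlus W σ) = ∑ e : G.edges, J e * sp e.1 (allPlus W σ) := rfl
  have h2 : energy G id J σ = ∑ e : G.edges, J e * sp e.1 σ := rfl
  have h3 : out G W i J = ∑ e : G.edges, if ¬ inS W i e.1 ∧ (e.1 ∩ W).Nonempty then |J e| else 0 :=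
    rfl
  rw [h1, h2]
  rw [← h3] at hsum
  have := hJ ex hexS
  linarith

/-- Flip the spins of `A`. -/
def flipA (A : Finset (Fin N)) (σ : Fin N → Bool) : Fin N → Bool :=
  fun v => if v ∈ A then !(σ v) else σ v

lemma flipA_invol (A : Finset (Fin N)) : Function.Involutive (flipA A) := by
  intro σ; funext v; unfold flipA; by_cases h : v ∈ A <;> simp [h]

lemma sum_allPlus_le (w : (Fin N → Bool) → ℝ) (hw : ∀ σ, 0 ≤ w σ) (hW : W.card = 4) :
    ∑ σ, w (allPlus W σ) ≤ 16 * ∑ σ, w σ := by
  classical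
  calc ∑ σ, w (allPlus W σ) ≤ ∑ σ, ∑ A ∈ W.powerset, w (flipA A σ) := by
        refine Finset.sum_le_sum fun σ _ => ?_
        have h : allPlus W σ = flipA (W.filter (fun v => σ v = false)) σ := by
          funext v
          unfold allPlus flipA
          by_cases hv : v ∈ W
          · rcases hs : σ v with _ | _
            · simp [hv, hs]
            · simp [hv, hs]
          · simp [hv]
        rw [h]
        exact Finset.single_le_sum (f := fun A => w (flipA A σ)) (fun A _ => hw _)
          (Finset.mem_powerset.2 (Finset.filter_subset _ _))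
    _ = ∑ A ∈ W.powerset, ∑ σ, w (flipA A σ) := Finset.sum_comm
    _ = ∑ A ∈ W.powerset, ∑ σ, w σ := by
        refine Finset.sum_congr rfl fun A _ => ?_
        exact Equiv.sum_comp (flipA_invol A).toPerm w
    _ = 16 * ∑ σ, w σ := by
        rw [Finset.sum_const, Finset.card_powerset, hW]; norm_num

/-- The length scale attached to `β`. -/
noncomputable def Lb (β : ℝ≥0∞) : ℝ := if β = ⊤ then 1 else Real.log 128 / (2 * β.toReal)

lemma Lb_pos {β : ℝ≥0∞} (hβ : β ≠ 0) : 0 < Lb β := by
  unfold Lb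
  split_ifs with h
  · norm_num
  · have : 0 < β.toReal := ENNReal.toReal_pos hβ h
    have h128 : 0 < Real.log 128 := Real.log_pos (by norm_num)
    positivity

theorem mag_ge {β : ℝ≥0∞} (hβ : β ≠ 0) (hi : i ∈ W) (hW : W.card = 4)
    (hS : ∀ x ∈ W, x ≠ i → W.erase x ∈ G.edges) (J : G.edges → ℝ)
    (hJ : ∀ e : G.edges, inS W i e.1 → Lb β + out G W i J ≤ J e) :
    3 / 4 ≤ mag G id β i J := by
  have hgap := fun σ hσ => energy_gap G W i hi hW hS J (Lb β) (Lb_pos hβ).le hJ σ hσ
  have hw : ∀ σ : Fin N → Bool, σ i = false →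
      weight G id β J σ ≤ 1 / 128 * weight G id β J (allPlus W σ) := by
    intro σ hσ
    have hg := hgap σ hσ
    by_cases h : β = ⊤
    · have h1 : ¬ ∀ τ, energy G id J τ ≤ energy G id J σ := by
        intro hall
        have := hall (allPlus W σ)
        have := Lb_pos hβ
        linarith
      unfold weight
      rw [if_pos h, if_neg h1, if_pos h]
      split_ifs <;> norm_num
    · have hpos : 0 < β.toReal := ENNReal.toReal_pos hβ h
      unfold weight
      rw [if_neg h, if_neg h]
      have e1 : (1 / 128 : ℝ) = Real.exp (-(β.toReal * (2 * Lb β))) := by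
        unfold Lb
        rw [if_neg h]
        have : β.toReal * (2 * (Real.log 128 / (2 * β.toReal))) = Real.log 128 := by
          field_simp
        rw [this, Real.exp_neg, Real.exp_log (by norm_num)]
        norm_num
      rw [e1, ← Real.exp_add, Real.exp_le_exp]
      nlinarith
  have hZ := Z_pos G id β J
  unfold mag
  rw [le_div_iff₀ hZ]
  have h1 : ∑ σ, weight G id β J σ * (1 - spin (σ i)) ≤ 1 / 4 * ∑ σ, weight G id β J σ := by
    calc ∑ σ, weight G id β J σ * (1 - spin (σ i))
        ≤ ∑ σ, 2 * (1 / 128 * weight G id β J (allPlus W σ)) := by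
          refine Finset.sum_le_sum fun σ _ => ?_
          rcases hs : σ i with _ | _
          · have := hw σ hs
            simp only [spin]
            norm_num
            linarith
          · have := weight_nonneg G id β J (allPlus W σ)
            simp only [spin]
            norm_num
            linarith
      _ = 1 / 64 * ∑ σ, weight G id β J (allPlus W σ) := by
          rw [Finset.mul_sum]
          refine Finset.sum_congr rfl fun σ _ => ?_
          ring
      _ ≤ 1 / 64 * (16 * ∑ σ, weight G id β J σ) := by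
          have := sum_allPlus_le W (weight G id β J) (weight_nonneg G id β J) hW
          linarith
      _ = 1 / 4 * ∑ σ, weight G id β J σ := by ring
  have h2 : ∑ σ, weight G id β J σ * (1 - spin (σ i)) =
      ∑ σ, weight G id β J σ - ∑ σ, weight G id β J σ * spin (σ i) := by
    rw [← Finset.sum_sub_distrib]
    refine Finset.sum_congr rfl fun σ _ => ?_
    ring
  linarith

end pointwise

end Pool.Agent.Lib.MP_f93cde_pr
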