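import Mathlib
import Pool.Agent.Lib.MP_f93cde_pr.Gibbs
import Pool.Agent.Lib.MP_f93cde_pr.Gauss

open MeasureTheory ProbabilityTheory
open scoped ENNReal BigOperators

namespace Pool.Agent.Lib.MP_f93cde_pr

variable {N : ℕ}

lemma integrable_abs_gaussian : Integrable (fun x : ℝ => |x|) (gaussianReal 0 1) := by
  have h := (memLp_id_gaussianReal (μ := 0) (v := 1) 1)
  have h' : MemLp id 1 (gaussianReal 0 1) := by simpa using h
  exact (memLp_one_iff_integrable.1 h').abs

lemma integral_abs_gaussian_le : ∫ x, |x| ∂(gaussianReal 0 1) ≤ 1 := by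
  have h2 : Integrable (fun x : ℝ => x ^ 2) (gaussianReal 0 1) := by
    have h := (memLp_id_gaussianReal (μ := 0) (v := 1) 2)
    exact (by simpa using h : MemLp id 2 (gaussianReal 0 1)).integrable_sq
  have hv : ∫ x, x ^ 2 ∂(gaussianReal 0 1) = 1 := by
    have h := variance_fun_id_gaussianReal (μ := 0) (v := 1)
    rw [variance_eq_integral (by fun_prop)] at h
    simpa using h
  calc ∫ x, |x| ∂(gaussianReal 0 1) ≤ ∫ x : ℝ, (1 + x ^ 2) / 2 ∂(gaussianReal 0 1) := by
        refine integral_mono integrable_abs_gaussian (((integrable_const 1).add h2).div_const 2) ?_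
        intro x
        simp only
        nlinarith [sq_nonneg (|x| - 1), sq_abs x]
    _ = 1 := by
        rw [integral_div, integral_add (integrable_const 1) h2, hv]; norm_num

section block

variable (G : Hyper3 N) (W : Finset (Fin N)) (i : Fin N) (L : ℝ)

open scoped Classical in
/-- One factor of the test function. -/
noncomputable def gf (e : G.edges) (x : ℝ) : ℝ := if inS W i e.1 then (if L ≤ x then 1 else 0) else 1

/-- The test function: the three couplings of the block are at least `L`. -/
noncomputable def gt (K : G.edges → ℝ) : ℝ := ∏ e, gf G W i L e (K e)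

lemma gf_nonneg (e : G.edges) (x : ℝ) : 0 ≤ gf G W i L e x := by
  unfold gf; split_ifs <;> norm_num

lemma gf_le_one (e : G.edges) (x : ℝ) : gf G W i L e x ≤ 1 := by
  unfold gf; split_ifs <;> norm_num

lemma gf_sq (e : G.edges) (x : ℝ) : gf G W i L e x ^ 2 = gf G W i L e x := by
  unfold gf; split_ifs <;> norm_num

lemma gt_nonneg (K : G.edges → ℝ) : 0 ≤ gt G W i L K :=
  Finset.prod_nonneg fun e _ => gf_nonneg G W i L e _

lemma gt_le_one (K : G.edges → ℝ) : gt G W i L K ≤ 1 :=
  Finset.prod_le_one (fun e _ => gf_nonneg G W i L e _) fun e _ => gf_le_one G W i L e _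

lemma gt_sq (K : G.edges → ℝ) : gt G W i L K ^ 2 = gt G W i L K := by
  unfold gt
  rw [← Finset.prod_pow]
  exact Finset.prod_congr rfl fun e _ => gf_sq G W i L e _

lemma gt_eq_zero_or (K : G.edges → ℝ) :
    gt G W i L K = 0 ∨ (gt G W i L K = 1 ∧ ∀ e : G.edges, inS W i e.1 → L ≤ K e) := by
  by_cases h : ∀ e : G.edges, inS W i e.1 → L ≤ K e
  · right
    refine ⟨Finset.prod_eq_one fun e _ => ?_, h⟩
    unfold gf
    split_ifs with h1 h2
    · rfl
    · exact absurd (h e h1) h2
    · rfl
  · left
    push Not at h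
    obtain ⟨e, he, hlt⟩ := h
    refine Finset.prod_eq_zero (Finset.mem_univ e) ?_
    unfold gf
    rw [if_pos he, if_neg (not_le.2 hlt)]

lemma measurable_gf (e : G.edges) : Measurable (gf G W i L e) := by
  unfold gf
  split_ifs
  · exact Measurable.ite measurableSet_Ici measurable_const measurable_const
  · exact measurable_const

lemma measurable_gt : Measurable (gt G W i L) := by
  unfold gt
  exact Finset.measurable_prod _ fun e _ => (measurable_gf G W i L e).comp (measurable_pi_apply e)

lemma integral_gt : ∫ K, gt G W i L K ∂(gP G.edges) =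
    ∏ e : G.edges, ∫ x, gf G W i L e x ∂(gaussianReal 0 1) := by
  unfold gt
  exact integral_fintype_prod_eq_prod (μ := fun _ : G.edges => gaussianReal 0 1)
    (f := fun e => gf G W i L e)

lemma integral_gt_abs (e₀ : G.edges) (he₀ : ¬ inS W i e₀.1) :
    ∫ K, gt G W i L K * |K e₀| ∂(gP G.edges) =
      (∫ x, |x| ∂(gaussianReal 0 1)) * ∫ K, gt G W i L K ∂(gP G.edges) := by
  classical
  have e1 : ∀ K : G.edges → ℝ, gt G W i L K * |K e₀| =
      ∏ e, (gf G W i L e (K e) * if e = e₀ then |K e| else 1) := by
    intro K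
    rw [Finset.prod_mul_distrib, Finset.prod_ite_eq' Finset.univ e₀]
    simp [gt]
  simp_rw [e1]
  have e2 := integral_fintype_prod_eq_prod (μ := fun _ : G.edges => gaussianReal 0 1)
    (f := fun e x => gf G W i L e x * if e = e₀ then |x| else 1)
  have e3 : ∀ e : G.edges, ∫ x, gf G W i L e x * (if e = e₀ then |x| else 1) ∂(gaussianReal 0 1) =
      (∫ x, gf G W i L e x ∂(gaussianReal 0 1)) *
        if e = e₀ then (∫ x, |x| ∂(gaussianReal 0 1)) else 1 := by
    intro e
    by_cases h : e = e₀
    · subst h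
      have : ∀ x, gf G W i L e x = 1 := fun x => by unfold gf; rw [if_neg he₀]
      simp [this]
    · simp [h]
  change ∫ K, ∏ e, (gf G W i L e (K e) * if e = e₀ then |K e| else 1) ∂(Measure.pi _) = _
  rw [e2]
  simp_rw [e3]
  rw [Finset.prod_mul_distrib, Finset.prod_ite_eq' Finset.univ e₀, integral_gt]
  simp only [Finset.mem_univ, if_true]
  ring

/-- The probability that a standard Gaussian is at least `L`. -/
noncomputable def pL (L : ℝ) : ℝ := ∫ x, (if L ≤ x then (1 : ℝ) else 0) ∂(gaussianReal 0 1)

lemma pL_pos (L : ℝ) : 0 < pL L := by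
  have e : ∀ x : ℝ, (if L ≤ x then (1 : ℝ) else 0) = (Set.Ici L).indicator (fun _ => (1 : ℝ)) x := by
    intro x; by_cases h : L ≤ x <;> simp [h]
  unfold pL
  simp_rw [e]
  rw [integral_indicator measurableSet_Ici]
  simp only [integral_const, MeasurableSet.univ, measureReal_restrict_apply, Set.univ_inter,
    smul_eq_mul, mul_one]
  rw [Measure.real, ENNReal.toReal_pos_iff]
  refine ⟨?_, measure_lt_top _ _⟩
  rw [gaussianReal_apply 0 (by norm_num : (1 : NNReal) ≠ 0)]
  rw [pos_iff_ne_zero]
  intro h0
  rw [setLIntegral_eq_zero_iff measurableSet_Ici (by fun_prop)] at h0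
  have h1 : (volume (Set.Ici L) : ℝ≥0∞) = 0 := by
    have h2 : ∀ᵐ x ∂(volume : Measure ℝ), x ∉ Set.Ici L := by
      filter_upwards [h0] with x hx hmem
      have := hx hmem
      exact absurd this (gaussianPDF_pos 0 (by norm_num) x).ne'
    rw [ae_iff] at h2
    have h3 : {a : ℝ | ¬ a ∉ Set.Ici L} = Set.Ici L := by ext; simp
    rw [h3] at h2
    exact h2
  rw [Real.volume_Ici] at h1
  exact absurd h1 (by simp)

lemma pL_le_one (L : ℝ) : pL L ≤ 1 := by
  unfold pL
  calc ∫ x, (if L ≤ x then (1 : ℝ) else 0) ∂(gaussianReal 0 1)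
      ≤ ∫ _x, (1 : ℝ) ∂(gaussianReal 0 1) := by
        refine integral_mono_of_nonneg (ae_of_all _ fun x => ?_) (integrable_const _)
          (ae_of_all _ fun x => ?_)
        · simp only; split_ifs <;> norm_num
        · simp only; split_ifs <;> norm_num
    _ = 1 := by simp

lemma integral_gt_ge (hW : W.card = 4) :
    pL L ^ 4 ≤ ∫ K, gt G W i L K ∂(gP G.edges) := by
  classical
  rw [integral_gt]
  have h1 : ∀ e : G.edges, ∫ x, gf G W i L e x ∂(gaussianReal 0 1) =
      if inS W i e.1 then pL L else 1 := by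
    intro e
    unfold gf pL
    split_ifs with h
    · rfl
    · simp
  simp_rw [h1]
  rw [Finset.prod_ite, Finset.prod_const, Finset.prod_const_one, mul_one]
  apply pow_le_pow_of_le_one (pL_pos L).le (pL_le_one L)
  calc (Finset.univ.filter (fun e : G.edges => inS W i e.1)).card
      ≤ (W.image (fun x => W.erase x)).card := by
        refine Finset.card_le_card_of_injOn (fun e => e.1) ?_ (fun a _ b _ h => Subtype.ext h)
        intro e he
        have he' : inS W i e.1 := by simpa using he
        obtain ⟨x, hx, _, hex⟩ := he'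
        exact Finset.mem_coe.2 (Finset.mem_image.2 ⟨x, hx, hex.symm⟩)
    _ ≤ W.card := Finset.card_image_le
    _ = 4 := hW

/-- The noise functional. -/
noncomputable def XX (K ξ : G.edges → ℝ) : ℝ :=
  ∑ e : G.edges, (if (e.1 ∩ W).Nonempty then |ξ e| else 0) + out G W i K

lemma out_le_abs (a b : ℝ) (ha : 0 ≤ a) (ha1 : a ≤ 1) (hb : 0 ≤ b) (hb1 : b ≤ 1)
    (K ξ : G.edges → ℝ) (e₀ : G.edges) (he₀ : inS W i e₀.1) (he₀W : (e₀.1 ∩ W).Nonempty) :
    out G W i (fun e => a * K e + b * ξ e) + |ξ e₀| ≤ XX G W i K ξ := by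
  classical
  unfold XX
  have h1 : out G W i (fun e => a * K e + b * ξ e) ≤ out G W i K + out G W i ξ := by
    unfold out
    rw [← Finset.sum_add_distrib]
    refine Finset.sum_le_sum fun e _ => ?_
    split_ifs
    · calc |a * K e + b * ξ e| ≤ |a * K e| + |b * ξ e| := abs_add_le _ _
        _ = a * |K e| + b * |ξ e| := by rw [abs_mul, abs_mul, abs_of_nonneg ha, abs_of_nonneg hb]
        _ ≤ |K e| + |ξ e| := by
          nlinarith [abs_nonneg (K e), abs_nonneg (ξ e)]
    · simp
  have h2 : out G W i ξ + |ξ e₀| ≤ ∑ e : G.edges, (if (e.1 ∩ W).Nonempty then |ξ e| else 0) := by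
    have h3 : |ξ e₀| = ∑ e : G.edges, if e = e₀ then |ξ e| else 0 := by
      rw [Finset.sum_ite_eq' Finset.univ e₀]; simp
    rw [h3]
    unfold out
    rw [← Finset.sum_add_distrib]
    refine Finset.sum_le_sum fun e _ => ?_
    by_cases hS : inS W i e.1
    · simp only [hS, not_true_eq_false, false_and, if_false, zero_add]
      by_cases h : e = e₀
      · subst h; simp [he₀W]
      · simp only [h, if_false]; split_ifs
        · exact abs_nonneg _
        · exact le_rfl
    · have h : e ≠ e₀ := fun h => hS (h ▸ he₀)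
      simp only [hS, not_false_eq_true, true_and, h, if_false, add_zero]
      split_ifs <;> exact le_rfl
  linarith

theorem mag_lower {β : ℝ≥0∞} (hβ : β ≠ 0) (hi : i ∈ W) (hW : W.card = 4)
    (hS : ∀ x ∈ W, x ≠ i → W.erase x ∈ G.edges) (a b M : ℝ) (ha : 0 ≤ a) (ha1 : a ≤ 1)
    (hb : 0 ≤ b) (hb1 : b ≤ 1) (hM : 0 < M) (hL : Lb β + M ≤ a * L) (K ξ : G.edges → ℝ) :
    gt G W i L K * (3 / 4 - 7 / (4 * M) * XX G W i K ξ) ≤
      mag G id β i (fun e => a * K e + b * ξ e) * gt G W i L K := by
  rcases gt_eq_zero_or G W i L K with h | ⟨h, hK⟩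
  · rw [h]; simp
  rw [h, one_mul, mul_one]
  by_cases hX : XX G W i K ξ ≤ M
  · have h34 : 3 / 4 ≤ mag G id β i (fun e => a * K e + b * ξ e) := by
      refine mag_ge G W i hβ hi hW hS _ fun e he => ?_
      have heW : (e.1 ∩ W).Nonempty := by
        obtain ⟨x, hx, hxi, hex⟩ := he
        refine ⟨i, Finset.mem_inter.2 ⟨?_, hi⟩⟩
        rw [hex]; exact Finset.mem_erase.2 ⟨hxi.symm, hi⟩
      have h1 := out_le_abs G W i a b ha ha1 hb hb1 K ξ e he heW
      have h2 : a * L ≤ a * K e := mul_le_mul_of_nonneg_left (hK e he) ha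
      have h3 : -|ξ e| ≤ b * ξ e := by
        have : |b * ξ e| ≤ |ξ e| := by
          rw [abs_mul, abs_of_nonneg hb]
          nlinarith [abs_nonneg (ξ e)]
        have := (abs_le.1 this).1
        exact this
      linarith
    have hX0 : 0 ≤ XX G W i K ξ := by
      unfold XX out
      refine add_nonneg (Finset.sum_nonneg fun e _ => ?_) (Finset.sum_nonneg fun e _ => ?_)
      · split_ifs
        · exact abs_nonneg _
        · exact le_rfl
      · split_ifs
        · exact abs_nonneg _
        · exact le_rfl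
    have : 0 ≤ 7 / (4 * M) * XX G W i K ξ := by positivity
    linarith
  · push Not at hX
    have h1 : -1 ≤ mag G id β i (fun e => a * K e + b * ξ e) :=
      (abs_le.1 (abs_mag_le G id β i _)).1
    have h2 : 7 / 4 < 7 / (4 * M) * XX G W i K ξ := by
      have : 7 / (4 * M) * M = 7 / 4 := by field_simp
      rw [← this]
      exact mul_lt_mul_of_pos_left hX (by positivity)
    linarith

lemma integrable_gt_mul_abs (e : G.edges) :
    Integrable (fun K => gt G W i L K * |K e|) (gP G.edges) := by
  have h1 : Integrable (fun K : G.edges → ℝ => |K e|) (gP G.edges) := by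
    have := (measurePreserving_eval (fun _ : G.edges => gaussianReal 0 1) e).integrable_comp
      (g := fun x : ℝ => |x|) (by fun_prop) |>.2 integrable_abs_gaussian
    exact this
  refine h1.mono' ((measurable_gt G W i L).mul (by fun_prop)).aestronglyMeasurable
    (ae_of_all _ fun K => ?_)
  rw [Real.norm_eq_abs, abs_mul, abs_abs, abs_of_nonneg (gt_nonneg _ _ _ _ _)]
  nlinarith [abs_nonneg (K e), gt_le_one G W i L K]

lemma integrable_abs_eval (e : G.edges) :
    Integrable (fun K : G.edges → ℝ => |K e|) (gP G.edges) := by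
  have := (measurePreserving_eval (fun _ : G.edges => gaussianReal 0 1) e).integrable_comp
      (g := fun x : ℝ => |x|) (by fun_prop) |>.2 integrable_abs_gaussian
  exact this

lemma integral_abs_eval (e : G.edges) :
    ∫ K : G.edges → ℝ, |K e| ∂(gP G.edges) = ∫ x, |x| ∂(gaussianReal 0 1) := by
  have h := measurePreserving_eval (fun _ : G.edges => gaussianReal 0 1) e
  rw [← h.map_eq, integral_map h.measurable.aemeasurable (by fun_prop)]

/-- The integrated lower bound. -/
theorem integral_lower {β : ℝ≥0∞} (hβ : β ≠ 0) (hi : i ∈ W) (hW : W.card = 4)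
    (hS : ∀ x ∈ W, x ≠ i → W.erase x ∈ G.edges) (a b M D : ℝ) (ha : 0 ≤ a) (ha1 : a ≤ 1)
    (hb : 0 ≤ b) (hb1 : b ≤ 1) (hM : 0 < M) (hL : Lb β + M ≤ a * L)
    (hD : ((Finset.univ.filter (fun e : G.edges => (e.1 ∩ W).Nonempty)).card : ℝ) ≤ D)
    (hMD : 14 * D ≤ M) :
    1 / 2 * ∫ K, gt G W i L K ∂(gP G.edges) ≤
      ∫ K, (∫ ξ, mag G id β i (fun e => a * K e + b * ξ e) ∂(gP G.edges)) * gt G W i L K
        ∂(gP G.edges) := by
  classical
  set I := ∫ K, gt G W i L K ∂(gP G.edges) with hI
  set κ := ∫ x, |x| ∂(gaussianReal 0 1) with hκ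
  have hκ0 : 0 ≤ κ := integral_nonneg fun x => abs_nonneg x
  have hκ1 : κ ≤ 1 := integral_abs_gaussian_le
  have hI0 : 0 ≤ I := integral_nonneg fun K => gt_nonneg G W i L K
  have hgi : Integrable (gt G W i L) (gP G.edges) :=
    bdd_integrable (measurable_gt G W i L) 1 fun K => by
      rw [abs_of_nonneg (gt_nonneg _ _ _ _ _)]; exact gt_le_one _ _ _ _ _
  have hmm : Measurable (fun p : (G.edges → ℝ) × (G.edges → ℝ) =>
      mag G id β i (fun e => a * p.1 e + b * p.2 e)) :=
    (measurable_mag G measurable_id β i).comp (by fun_prop)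
  -- inner integral of the lower bound
  let T : ℝ := ((Finset.univ.filter (fun e : G.edges => (e.1 ∩ W).Nonempty)).card : ℝ)
  have hind : ∀ e : G.edges, Integrable (fun ξ : G.edges → ℝ =>
      if (e.1 ∩ W).Nonempty then |ξ e| else 0) (gP G.edges) := by
    intro e
    split_ifs
    · exact integrable_abs_eval G e
    · exact integrable_const _
  have hXi : ∀ K : G.edges → ℝ, Integrable (fun ξ => XX G W i K ξ) (gP G.edges) := by
    intro K
    unfold XX
    exact Integrable.add (integrable_finsetSum _ fun e _ => hind e) (integrable_const _)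
  have hXint : ∀ K : G.edges → ℝ, ∫ ξ, XX G W i K ξ ∂(gP G.edges) = T * κ + out G W i K := by
    intro K
    unfold XX
    rw [integral_add (integrable_finsetSum _ fun e _ => hind e) (integrable_const _),
      integral_finsetSum _ fun e _ => hind e]
    have : ∀ e : G.edges, ∫ ξ : G.edges → ℝ, (if (e.1 ∩ W).Nonempty then |ξ e| else 0)
        ∂(gP G.edges) = if (e.1 ∩ W).Nonempty then κ else 0 := by
      intro e
      split_ifs
      · exact integral_abs_eval G e
      · simp
    simp_rw [this]
    rw [← Finset.sum_filter, Finset.sum_const, nsmul_eq_mul]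
    simp [T]
  have hinner : ∀ K : G.edges → ℝ, gt G W i L K * (3 / 4 - 7 / (4 * M) * (T * κ + out G W i K)) ≤
      (∫ ξ, mag G id β i (fun e => a * K e + b * ξ e) ∂(gP G.edges)) * gt G W i L K := by
    intro K
    rw [← integral_mul_const, ← hXint K]
    have e1 : gt G W i L K * (3 / 4 - 7 / (4 * M) * ∫ ξ, XX G W i K ξ ∂(gP G.edges)) =
        ∫ ξ, gt G W i L K * (3 / 4 - 7 / (4 * M) * XX G W i K ξ) ∂(gP G.edges) := by
      rw [integral_const_mul, integral_sub (integrable_const _) ((hXi K).const_mul _),
        integral_const_mul]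
      simp
    rw [e1]
    refine integral_mono (((integrable_const _).sub ((hXi K).const_mul _)).const_mul _) ?_
      (fun ξ => mag_lower G W i L hβ hi hW hS a b M ha ha1 hb hb1 hM hL K ξ)
    refine bdd_integrable ((hmm.comp (measurable_const.prodMk measurable_id)).mul_const _) 1 ?_
    intro ξ
    rw [abs_mul, abs_of_nonneg (gt_nonneg G W i L K)]
    exact mul_le_one₀ (abs_mag_le _ _ _ _ _) (gt_nonneg _ _ _ _ _) (gt_le_one _ _ _ _ _)
  have houti : Integrable (fun K => gt G W i L K * out G W i K) (gP G.edges) := by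
    unfold out
    simp_rw [Finset.mul_sum]
    refine integrable_finsetSum _ fun e _ => ?_
    split_ifs
    · exact integrable_gt_mul_abs G W i L e
    · simp
  have houtint : ∫ K, gt G W i L K * out G W i K ∂(gP G.edges) ≤ T * I := by
    unfold out
    simp_rw [Finset.mul_sum]
    rw [integral_finsetSum]
    · have : ∀ e : G.edges, ∫ K, gt G W i L K *
          (if ¬ inS W i e.1 ∧ (e.1 ∩ W).Nonempty then |K e| else 0) ∂(gP G.edges) ≤
          if (e.1 ∩ W).Nonempty then I else 0 := by
        intro e
        by_cases h1 : inS W i e.1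
        · simp only [h1, not_true_eq_false, false_and, if_false, mul_zero, integral_zero]
          split_ifs
          · exact hI0
          · exact le_rfl
        · by_cases h2 : (e.1 ∩ W).Nonempty
          · simp only [h1, h2, not_false_eq_true, and_self, if_true]
            rw [integral_gt_abs G W i L e h1]
            nlinarith
          · simp [h2]
      refine (Finset.sum_le_sum fun e _ => this e).trans ?_
      rw [← Finset.sum_filter, Finset.sum_const, nsmul_eq_mul]
    · intro e _
      split_ifs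
      · exact integrable_gt_mul_abs G W i L e
      · simp
  calc 1 / 2 * I ≤ (3 / 4 - 7 / (4 * M) * (T * κ)) * I - 7 / (4 * M) * (T * I) := by
        have hT : 0 ≤ T := by positivity
        have h1 : 7 / (4 * M) * (T * κ) ≤ 1 / 8 := by
          rw [div_mul_eq_mul_div, div_le_iff₀ (by positivity)]
          have : T * κ ≤ D * 1 := mul_le_mul hD hκ1 hκ0 (hT.trans hD)
          linarith
        have h2 : 7 / (4 * M) * T ≤ 1 / 8 := by
          rw [div_mul_eq_mul_div, div_le_iff₀ (by positivity)]
          have : T ≤ D := hD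
          linarith
        nlinarith
    _ ≤ (3 / 4 - 7 / (4 * M) * (T * κ)) * I -
          7 / (4 * M) * ∫ K, gt G W i L K * out G W i K ∂(gP G.edges) := by
        have : 0 < 7 / (4 * M) := by positivity
        nlinarith
    _ = ∫ K, gt G W i L K * (3 / 4 - 7 / (4 * M) * (T * κ + out G W i K)) ∂(gP G.edges) := by
        have e1 : ∀ K : G.edges → ℝ,
            gt G W i L K * (3 / 4 - 7 / (4 * M) * (T * κ + out G W i K)) =
            (3 / 4 - 7 / (4 * M) * (T * κ)) * gt G W i L K -
              7 / (4 * M) * (gt G W i L K * out G W i K) := fun K => by ring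
        simp_rw [e1]
        rw [integral_sub (hgi.const_mul _) (houti.const_mul _), integral_const_mul,
          integral_const_mul]
    _ ≤ _ := by
        refine integral_mono ?_ ?_ hinner
        · have e1 : ∀ K : G.edges → ℝ,
              gt G W i L K * (3 / 4 - 7 / (4 * M) * (T * κ + out G W i K)) =
              (3 / 4 - 7 / (4 * M) * (T * κ)) * gt G W i L K -
                7 / (4 * M) * (gt G W i L K * out G W i K) := fun K => by ring
          simp_rw [e1]
          exact (hgi.const_mul _).sub (houti.const_mul _)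
        · refine bdd_integrable ?_ 1 ?_
          · exact (hmm.stronglyMeasurable.integral_prod_right').measurable.mul
              (measurable_gt G W i L)
          · intro K
            rw [abs_mul, abs_of_nonneg (gt_nonneg G W i L K)]
            refine mul_le_one₀ ?_ (gt_nonneg _ _ _ _ _) (gt_le_one _ _ _ _ _)
            calc _ ≤ ∫ ξ, |mag G id β i (fun e => a * K e + b * ξ e)| ∂(gP G.edges) :=
                  abs_integral_le_integral_abs
              _ ≤ ∫ _ξ, (1 : ℝ) ∂(gP G.edges) := by
                  refine integral_mono_of_nonneg (ae_of_all _ fun _ => abs_nonneg _)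
                    (integrable_const _) (ae_of_all _ fun ξ => abs_mag_le _ _ _ _ _)
              _ = 1 := by simp

/-- From the test function to the square. -/
lemma sq_lower (u : (G.edges → ℝ) → ℝ) (hu : Measurable u) (hub : ∀ K, |u K| ≤ 1)
    (h : 1 / 2 * ∫ K, gt G W i L K ∂(gP G.edges) ≤ ∫ K, u K * gt G W i L K ∂(gP G.edges)) :
    1 / 4 * ∫ K, gt G W i L K ∂(gP G.edges) ≤ ∫ K, u K ^ 2 ∂(gP G.edges) := by
  have hgi : Integrable (gt G W i L) (gP G.edges) :=
    bdd_integrable (measurable_gt G W i L) 1 fun K => by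
      rw [abs_of_nonneg (gt_nonneg _ _ _ _ _)]; exact gt_le_one _ _ _ _ _
  have hugi : Integrable (fun K => u K * gt G W i L K) (gP G.edges) :=
    bdd_integrable (hu.mul (measurable_gt G W i L)) 1 fun K => by
      rw [abs_mul, abs_of_nonneg (gt_nonneg G W i L K)]
      exact mul_le_one₀ (hub K) (gt_nonneg _ _ _ _ _) (gt_le_one _ _ _ _ _)
  have hu2 : Integrable (fun K => u K ^ 2) (gP G.edges) :=
    bdd_integrable (hu.pow_const 2) 1 fun K => by
      rw [abs_pow]; exact pow_le_one₀ (abs_nonneg _) (hub K)
  calc 1 / 4 * ∫ K, gt G W i L K ∂(gP G.edges)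
      ≤ ∫ K, u K * gt G W i L K ∂(gP G.edges) - 1 / 4 * ∫ K, gt G W i L K ∂(gP G.edges) := by
        linarith
    _ = ∫ K, (u K * gt G W i L K - 1 / 4 * gt G W i L K) ∂(gP G.edges) := by
        rw [integral_sub hugi (hgi.const_mul _), integral_const_mul]
    _ ≤ ∫ K, u K ^ 2 ∂(gP G.edges) := by
        refine integral_mono (hugi.sub (hgi.const_mul _)) hu2 fun K => ?_
        have := gt_sq G W i L K
        simp only
        nlinarith [sq_nonneg (u K - 1 / 2 * gt G W i L K)]

end block

end Pool.Agent.Lib.MP_f93cde_pr
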