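import Mathlib
import Pool.Agent.Lib.MP_f93cde_pr.Lower
import Pool.Agent.Lib.MP_f93cde_pr.Graph

open MeasureTheory ProbabilityTheory
open scoped ENNReal BigOperators

namespace Pool.Agent.Lib.MP_f93cde_pr

/-! ### Splicing for the discrete perturbation -/

section splice

variable {ι : Type*} [Fintype ι]
set_option linter.unusedSectionVars false

/-- Keep the coordinates selected by `b`. -/
def sl (b : ι → Bool) (x y : ι → ℝ) : ι → ℝ := fun e => if b e then x e else y e

lemma measurable_sl (b : ι → Bool) : Measurable (fun p : (ι → ℝ) × (ι → ℝ) => sl b p.1 p.2) := by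
  rw [measurable_pi_iff]; intro e
  unfold sl
  split_ifs <;> fun_prop

lemma sl_preserving (b : ι → Bool) :
    MeasurePreserving (fun p : (ι → ℝ) × (ι → ℝ) => sl b p.1 p.2) ((gP ι).prod (gP ι)) (gP ι) := by
  refine ⟨measurable_sl b, ?_⟩
  symm
  refine Measure.pi_eq fun s hs => ?_
  rw [Measure.map_apply (measurable_sl b) (MeasurableSet.univ_pi hs)]
  have e : (fun p : (ι → ℝ) × (ι → ℝ) => sl b p.1 p.2) ⁻¹' (Set.univ.pi s) =
      (Set.univ.pi (fun e => if b e then s e else Set.univ)) ×ˢ
        (Set.univ.pi (fun e => if b e then Set.univ else s e)) := by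
    ext ⟨x, y⟩
    simp only [Set.mem_preimage, Set.mem_pi, Set.mem_univ, true_imp_iff, Set.mem_prod, sl]
    constructor
    · intro h
      refine ⟨fun e => ?_, fun e => ?_⟩
      · have := h e
        by_cases hb : b e
        · simpa [hb] using this
        · simp [hb]
      · have := h e
        by_cases hb : b e
        · simp [hb]
        · simpa [hb] using this
    · rintro ⟨h1, h2⟩ e
      by_cases hb : b e
      · simpa [hb] using h1 e
      · simpa [hb] using h2 e
  rw [e, Measure.prod_prod, Measure.pi_pi, Measure.pi_pi, ← Finset.prod_mul_distrib]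
  refine Finset.prod_congr rfl fun e _ => ?_
  by_cases hb : b e <;> simp [hb]

lemma sl_sl (b : ι → Bool) (x y z : ι → ℝ) : sl b (sl b x y) z = sl b x z := by
  funext e; unfold sl; by_cases h : b e <;> simp [h]

/-- The smoothed function. -/
noncomputable def um (b : ι → Bool) (m : (ι → ℝ) → ℝ) (x : ι → ℝ) : ℝ :=
  ∫ y, m (sl b x y) ∂(gP ι)

lemma um_sl (b : ι → Bool) (m : (ι → ℝ) → ℝ) (x y : ι → ℝ) : um b m (sl b x y) = um b m x := by
  unfold um; simp_rw [sl_sl]

lemma measurable_um (b : ι → Bool) {m : (ι → ℝ) → ℝ} (hm : Measurable m) :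
    Measurable (um b m) := by
  unfold um
  exact ((hm.comp (measurable_sl b)).stronglyMeasurable.integral_prod_right').measurable

lemma abs_um_le (b : ι → Bool) {m : (ι → ℝ) → ℝ} (hb : ∀ J, |m J| ≤ 1) (x : ι → ℝ) :
    |um b m x| ≤ 1 := by
  unfold um
  calc |∫ y, m (sl b x y) ∂(gP ι)| ≤ ∫ y, |m (sl b x y)| ∂(gP ι) := abs_integral_le_integral_abs
    _ ≤ ∫ _y, (1 : ℝ) ∂(gP ι) := integral_mono_of_nonneg (ae_of_all _ fun _ => abs_nonneg _)
        (integrable_const _) (ae_of_all _ fun y => hb _)
    _ = 1 := by simp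

/-- Averaging against a function of the kept coordinates. -/
lemma integral_um_mul (b : ι → Bool) {m : (ι → ℝ) → ℝ} (hm : Measurable m) (hb : ∀ J, |m J| ≤ 1)
    {g : (ι → ℝ) → ℝ} (hg : Measurable g) (hgb : ∀ J, |g J| ≤ 1)
    (hgs : ∀ x y, g (sl b x y) = g x) :
    ∫ x, m x * g x ∂(gP ι) = ∫ x, um b m x * g x ∂(gP ι) := by
  have hi : Integrable (fun x => m x * g x) (gP ι) :=
    bdd_integrable (hm.mul hg) 1 fun x => by
      rw [abs_mul]; exact mul_le_one₀ (hb x) (abs_nonneg _) (hgb x)
  have h := sl_preserving (ι := ι) b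
  rw [← h.map_eq, integral_map h.measurable.aemeasurable (by
    exact (hm.mul hg).aestronglyMeasurable), integral_prod]
  · rw [h.map_eq]
    refine integral_congr_ae (ae_of_all _ fun x => ?_)
    simp only [hgs]
    rw [integral_mul_const]
    rfl
  · exact h.integrable_comp hi.aestronglyMeasurable |>.2 hi

theorem disc_identity (b : ι → Bool) {m : (ι → ℝ) → ℝ} (hm : Measurable m)
    (hb : ∀ J, |m J| ≤ 1) :
    ∫ J, ∫ J', m J * m (sl b J J') ∂(gP ι) ∂(gP ι) = ∫ J, um b m J ^ 2 ∂(gP ι) := by
  have e1 : ∀ J, ∫ J', m J * m (sl b J J') ∂(gP ι) = m J * um b m J := fun J => by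
    rw [integral_const_mul]; rfl
  simp_rw [e1]
  rw [integral_um_mul b hm hb (measurable_um b hm) (abs_um_le b hb) (um_sl b m)]
  refine integral_congr_ae (ae_of_all _ fun x => ?_)
  simp only; ring

end splice

/-! ### Lower bounds for one site -/

section site

variable {N : ℕ}

theorem cont_site {β : ℝ≥0∞} (hβ : β ≠ 0) {t : ℝ} (ht : 0 ≤ t) (hN : 4 ≤ N) (i : Fin N) :
    1 / 4 * pL ((Lb β + 14 * 1024) / Real.exp (-t / 2)) ^ 4 ≤
    ∫ J, ∫ J', mag (win N) id β i J * mag (win N) id β i
      (fun e => Real.exp (-t) * J e + Real.sqrt (1 - Real.exp (-2 * t)) * J' e)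
        ∂(disorder (win N)) ∂(disorder (win N)) := by
  set a := Real.exp (-t / 2) with ha
  set L := (Lb β + 14 * 1024) / a with hL
  have ha0 : 0 < a := Real.exp_pos _
  have ha1 : a ≤ 1 := by
    rw [ha]; exact Real.exp_le_one_iff.2 (by linarith)
  have haa : a ^ 2 = Real.exp (-t) := by
    rw [ha, ← Real.exp_nat_mul]; congr 1; push_cast; ring
  have haaa : (a ^ 2) ^ 2 = Real.exp (-2 * t) := by
    rw [haa, ← Real.exp_nat_mul]; congr 1; push_cast; ring
  have hb0 : 0 ≤ 1 - a ^ 2 := by nlinarith
  set b := Real.sqrt (1 - a ^ 2) with hb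
  have hb1 : b ≤ 1 := by
    rw [hb]; exact Real.sqrt_le_one.2 (by nlinarith)
  have hab : a ^ 2 + b ^ 2 = 1 := by rw [hb, Real.sq_sqrt hb0]; ring
  have hid := cont_identity (mag (win N) id β i) (measurable_mag _ measurable_id β i)
    (abs_mag_le _ _ β i) a b ha0.le (Real.sqrt_nonneg _) hab
  rw [haaa, haa] at hid
  change _ ≤ ∫ J, ∫ J', mag (win N) id β i J * mag (win N) id β i
      (fun e => Real.exp (-t) * J e + Real.sqrt (1 - Real.exp (-2 * t)) * J' e)
        ∂(gP (win N).edges) ∂(gP (win N).edges)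
  rw [hid]
  have hlow := integral_lower (win N) (blk i) i L hβ (mem_blk_self hN i) (blk_card hN i)
    (fun x hx _ => blk_erase_mem hN i x hx) a b (14 * 1024) 1024 ha0.le ha1
    (Real.sqrt_nonneg _) hb1 (by norm_num) (by rw [hL, mul_div_cancel₀ _ ha0.ne'])
    (by exact_mod_cast touching_card i) (by norm_num)
  have hmm : Measurable (fun p : ((win N).edges → ℝ) × ((win N).edges → ℝ) =>
      mag (win N) id β i (fun e => a * p.1 e + b * p.2 e)) :=
    (measurable_mag _ measurable_id β i).comp (by fun_prop)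
  have hsq := sq_lower (win N) (blk i) i L
    (fun K => ∫ ξ, mag (win N) id β i (fun e => a * K e + b * ξ e) ∂(gP (win N).edges))
    ((hmm.stronglyMeasurable.integral_prod_right').measurable) (fun K => by
      calc _ ≤ ∫ ξ, |mag (win N) id β i (fun e => a * K e + b * ξ e)| ∂(gP (win N).edges) :=
            abs_integral_le_integral_abs
        _ ≤ ∫ _ξ, (1 : ℝ) ∂(gP (win N).edges) :=
            integral_mono_of_nonneg (ae_of_all _ fun _ => abs_nonneg _)
              (integrable_const _) (ae_of_all _ fun ξ => abs_mag_le _ _ _ _ _)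
        _ = 1 := by simp) hlow
  refine le_trans ?_ hsq
  have := integral_gt_ge (win N) (blk i) i L (blk_card hN i)
  linarith

theorem disc_site_nonneg (β : ℝ≥0∞) (i : Fin N) (b : (win N).edges → Bool) :
    0 ≤ ∫ J, ∫ J', mag (win N) id β i J * mag (win N) id β i (sl b J J')
        ∂(disorder (win N)) ∂(disorder (win N)) := by
  have hid := disc_identity b (measurable_mag (win N) measurable_id β i)
    (abs_mag_le (win N) id β i)
  change 0 ≤ ∫ J, ∫ J', mag (win N) id β i J * mag (win N) id β i (sl b J J')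
        ∂(gP (win N).edges) ∂(gP (win N).edges)
  rw [hid]
  exact integral_nonneg fun J => sq_nonneg _

theorem disc_site {β : ℝ≥0∞} (hβ : β ≠ 0) (hN : 4 ≤ N) (i : Fin N)
    (b : (win N).edges → Bool) (hb : ∀ e : (win N).edges, inS (blk i) i e.1 → b e = true) :
    1 / 4 * pL (Lb β + 14 * 1024) ^ 4 ≤
    ∫ J, ∫ J', mag (win N) id β i J * mag (win N) id β i (sl b J J')
        ∂(disorder (win N)) ∂(disorder (win N)) := by
  set L := Lb β + 14 * 1024 with hL
  have hid := disc_identity b (measurable_mag (win N) measurable_id β i)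
    (abs_mag_le (win N) id β i)
  change _ ≤ ∫ J, ∫ J', mag (win N) id β i J * mag (win N) id β i (sl b J J')
        ∂(gP (win N).edges) ∂(gP (win N).edges)
  rw [hid]
  have hlow := integral_lower (win N) (blk i) i L hβ (mem_blk_self hN i) (blk_card hN i)
    (fun x hx _ => blk_erase_mem hN i x hx) 1 0 (14 * 1024) 1024 zero_le_one le_rfl
    le_rfl zero_le_one (by norm_num) (by rw [hL, one_mul])
    (by exact_mod_cast touching_card i) (by norm_num)
  simp only [one_mul, zero_mul, add_zero, integral_const, probReal_univ, smul_eq_mul] at hlow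
  have hgs : ∀ x y, gt (win N) (blk i) i L (sl b x y) = gt (win N) (blk i) i L x := by
    intro x y
    unfold gt
    refine Finset.prod_congr rfl fun e _ => ?_
    unfold gf
    split_ifs with h1 h2 h3 h3
    · rfl
    · exact absurd (by simpa [sl, hb e h1] using h2) h3
    · exact absurd (by simpa [sl, hb e h1] using h3) h2
    · rfl
    · rfl
  rw [integral_um_mul b (measurable_mag (win N) measurable_id β i) (abs_mag_le (win N) id β i)
    (measurable_gt _ _ _ _) (fun K => by
      rw [abs_of_nonneg (gt_nonneg _ _ _ _ _)]; exact gt_le_one _ _ _ _ _) hgs] at hlow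
  have hsq := sq_lower (win N) (blk i) i L (um b (mag (win N) id β i))
    (measurable_um b (measurable_mag (win N) measurable_id β i))
    (abs_um_le b (abs_mag_le (win N) id β i)) hlow
  refine le_trans ?_ hsq
  have := integral_gt_ge (win N) (blk i) i L (blk_card hN i)
  linarith

end site

/-! ### The two means -/

section means

variable {N : ℕ}

instance (G : Hyper3 N) : IsProbabilityMeasure (disorder G) := by unfold disorder; infer_instance

theorem overlapSq_facts (G : Hyper3 N) (β : ℝ≥0∞) :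
    Measurable (fun p : (G.edges → ℝ) × (G.edges → ℝ) => overlapSq G id β p.1 p.2) ∧
      ∀ J J', |overlapSq G id β J J'| ≤ 1 :=
  ⟨measurable_overlapSq G measurable_id β, fun J J' => by
    rw [abs_of_nonneg (overlapSq_nonneg _ _ _ _ _)]; exact overlapSq_le_one _ _ _ _ _⟩

theorem mag_facts (G : Hyper3 N) (β : ℝ≥0∞) (i : Fin N) :
    Measurable (mag G id β i) ∧ ∀ J, |mag G id β i J| ≤ 1 :=
  ⟨measurable_mag G measurable_id β i, abs_mag_le _ _ _ _⟩

theorem mean_lower (G : Hyper3 N) (β : ℝ≥0∞)
    (pt : (G.edges → ℝ) → (G.edges → ℝ) → (G.edges → ℝ))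
    (mpt : Measurable (fun p : (G.edges → ℝ) × (G.edges → ℝ) => pt p.1 p.2)) (c : ℝ) :
    2 * c * ((N : ℝ)⁻¹ * ∑ i, ∫ J, ∫ J', mag G id β i J *
        mag G id β i (pt J J') ∂(disorder G) ∂(disorder G)) - c ^ 2 ≤
      ∫ J, ∫ J', overlapSq G id β J (pt J J') ∂(disorder G) ∂(disorder G) := by
  have hov := overlapSq_facts G β
  have hmg := mag_facts G β
  have hge := fun J J' => overlapSq_ge G id β J J' c
  revert hov hmg hge
  generalize overlapSq G id β = F
  generalize mag G id β = m
  intro hov hmg hge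
  have hprod : Integrable (fun p : (G.edges → ℝ) × (G.edges → ℝ) =>
      F p.1 (pt p.1 p.2)) ((disorder G).prod (disorder G)) := by
    refine bdd_integrable ?_ 1 fun p => hov.2 _ _
    exact hov.1.comp (measurable_fst.prodMk mpt)
  have hi : ∀ i, Integrable (fun p : (G.edges → ℝ) × (G.edges → ℝ) =>
      m i p.1 * m i (pt p.1 p.2)) ((disorder G).prod (disorder G)) := fun i => by
    refine bdd_integrable (((hmg i).1.comp measurable_fst).mul
      ((hmg i).1.comp mpt)) 1 fun p => by
        rw [abs_mul]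
        exact mul_le_one₀ ((hmg i).2 _) (abs_nonneg _) ((hmg i).2 _)
  have hsi : Integrable (fun p : (G.edges → ℝ) × (G.edges → ℝ) =>
      ∑ i, m i p.1 * m i (pt p.1 p.2)) ((disorder G).prod (disorder G)) :=
    integrable_finsetSum _ fun i _ => hi i
  have hsi2 := (hsi.const_mul ((N : ℝ)⁻¹)).const_mul (2 * c)
  have hc2 : Integrable (fun _ : (G.edges → ℝ) × (G.edges → ℝ) => c ^ 2)
      ((disorder G).prod (disorder G)) := integrable_const _
  have e0 : ∫ J, ∫ J', F J (pt J J') ∂(disorder G) ∂(disorder G) =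
      ∫ p, F p.1 (pt p.1 p.2) ∂((disorder G).prod (disorder G)) :=
    (integral_prod _ hprod).symm
  have e1 : ∀ i, ∫ J, ∫ J', m i J * m i (pt J J') ∂(disorder G) ∂(disorder G) =
      ∫ p, m i p.1 * m i (pt p.1 p.2) ∂((disorder G).prod (disorder G)) :=
    fun i => (integral_prod _ (hi i)).symm
  rw [e0, Finset.sum_congr rfl fun i _ => e1 i, ← integral_finsetSum _ fun i _ => hi i,
    ← integral_const_mul, ← integral_const_mul]
  have e2 : c ^ 2 = ∫ _p : (G.edges → ℝ) × (G.edges → ℝ), c ^ 2
      ∂((disorder G).prod (disorder G)) := by simp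
  rw [e2, ← integral_sub hsi2 hc2]
  exact integral_mono (hsi2.sub hc2) hprod fun p => hge p.1 (pt p.1 p.2)

lemma arith_c (hN : 4 ≤ N) {c : ℝ} (hc : 0 < c) (f : Fin N → ℝ) (hf : ∀ i, c ≤ f i) :
    c ^ 2 ≤ 2 * c * ((N : ℝ)⁻¹ * ∑ i, f i) - c ^ 2 := by
  have hN0 : (0 : ℝ) < N := by positivity
  have h1 : (N : ℝ) * c ≤ ∑ i, f i := by
    calc (N : ℝ) * c = ∑ _i : Fin N, c := by simp
      _ ≤ ∑ i, f i := Finset.sum_le_sum fun i _ => hf i
  have h2 : c ≤ (N : ℝ)⁻¹ * ∑ i, f i := by
    rw [le_inv_mul_iff₀ hN0]; exact h1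
  nlinarith

theorem meanCont_ge {β : ℝ≥0∞} (hβ : β ≠ 0) {t : ℝ} (ht : 0 ≤ t) (hN : 4 ≤ N) :
    (1 / 4 * pL ((Lb β + 14 * 1024) / Real.exp (-t / 2)) ^ 4) ^ 2 ≤ meanCont (win N) id β t := by
  have hc0 : 0 < 1 / 4 * pL ((Lb β + 14 * 1024) / Real.exp (-t / 2)) ^ 4 := by
    have := pL_pos ((Lb β + 14 * 1024) / Real.exp (-t / 2)); positivity
  have h1 := arith_c hN hc0 _ fun i => cont_site hβ ht hN i
  refine h1.trans ?_
  exact mean_lower (win N) β (fun J J' e =>
    Real.exp (-t) * J e + Real.sqrt (1 - Real.exp (-2 * t)) * J' e) (by fun_prop) _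

instance bern_prob {t : ℝ} [Fact (0 ≤ t)] : IsProbabilityMeasure (bern t) := by
  constructor
  have ht : 0 ≤ t := Fact.out
  have h1 : Real.exp (-t) ≤ 1 := Real.exp_le_one_iff.2 (by linarith)
  simp only [bern, Measure.add_apply, Measure.smul_apply, measure_univ, smul_eq_mul, mul_one]
  rw [← ENNReal.ofReal_add (Real.exp_pos _).le (by linarith)]
  simp

lemma sum_real_singleton_univ {ι : Type*} [Fintype ι] [MeasurableSpace ι]
    [MeasurableSingletonClass ι] (Q : Measure ι) [IsProbabilityMeasure Q] :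
    ∑ b, Q.real {b} = 1 := by
  have h : Q.real Set.univ = 1 := probReal_univ
  rw [← h, ← Finset.coe_univ, ← sum_measureReal_singleton (μ := Q) (s := Finset.univ)]

/-- Expansion of the discrete mean over the resampling pattern. -/
theorem meanDisc_eq (G : Hyper3 N) (β : ℝ≥0∞) {t : ℝ} (ht : 0 ≤ t) :
    meanDisc G id β t = ∑ b : G.edges → Bool, (Measure.pi (fun _ : G.edges => bern t)).real {b} *
      ∫ J, ∫ J', overlapSq G id β J (sl b J J') ∂(disorder G) ∂(disorder G) := by
  have : Fact (0 ≤ t) := ⟨ht⟩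
  have hov := overlapSq_facts G β
  unfold meanDisc
  revert hov
  generalize overlapSq G id β = F
  intro hov
  have hJi : ∀ (b : G.edges → Bool) J, Integrable (fun J' =>
      F J (sl b J J')) (disorder G) := fun b J => by
    refine bdd_integrable ?_ 1 fun p => hov.2 _ _
    exact hov.1.comp (measurable_const.prodMk ((measurable_sl b).comp
        (measurable_const.prodMk measurable_id)))
  have hJJ : ∀ (b : G.edges → Bool), Integrable (fun J =>
      ∫ J', F J (sl b J J') ∂(disorder G)) (disorder G) := fun b => by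
    refine bdd_integrable ?_ 1 fun J => ?_
    · exact ((hov.1.comp
        (measurable_fst.prodMk (measurable_sl b))).stronglyMeasurable.integral_prod_right'
        ).measurable
    · calc _ ≤ ∫ J', |F J (sl b J J')| ∂(disorder G) :=
            abs_integral_le_integral_abs
        _ ≤ ∫ _J', (1 : ℝ) ∂(disorder G) :=
            integral_mono_of_nonneg (ae_of_all _ fun _ => abs_nonneg _)
            (integrable_const _) (ae_of_all _ fun J' => hov.2 _ _)
        _ = 1 := by simp
  have e0 : ∀ J J', ∫ b, F J (fun e => if b e then J e else J' e)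
      ∂(Measure.pi (fun _ : G.edges => bern t)) =
      ∑ b : G.edges → Bool, (Measure.pi (fun _ : G.edges => bern t)).real {b} *
        F J (sl b J J') := by
    intro J J'
    rw [integral_fintype Integrable.of_finite]
    rfl
  have e3 : ∀ J, ∫ J', ∑ b : G.edges → Bool, (Measure.pi (fun _ : G.edges => bern t)).real {b} *
      F J (sl b J J') ∂(disorder G) =
      ∑ b : G.edges → Bool, (Measure.pi (fun _ : G.edges => bern t)).real {b} *
        ∫ J', F J (sl b J J') ∂(disorder G) := by
    intro J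
    rw [integral_finsetSum _ fun b _ => (hJi b J).const_mul _]
    exact Finset.sum_congr rfl fun b _ => integral_const_mul _ _
  rw [integral_congr_ae (ae_of_all _ fun J => (integral_congr_ae
    (ae_of_all _ fun J' => e0 J J')).trans (e3 J)),
    integral_finsetSum _ fun b _ => (hJJ b).const_mul _]
  exact Finset.sum_congr rfl fun b _ => integral_const_mul _ _

lemma inS_card (hN : 4 ≤ N) (i : Fin N) (S : Finset (win N).edges)
    (hS : ∀ e ∈ S, inS (blk i) i e.1) : S.card ≤ 4 := by
  classical
  calc S.card ≤ ((blk i).image (fun x => (blk i).erase x)).card := by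
        refine Finset.card_le_card_of_injOn (fun e => e.1) ?_
          (fun a _ b _ h => Subtype.ext h)
        intro e he
        obtain ⟨x, hx, _, hex⟩ := hS e (Finset.mem_coe.1 he)
        exact Finset.mem_coe.2 (Finset.mem_image.2 ⟨x, hx, hex.symm⟩)
    _ ≤ (blk i).card := Finset.card_image_le
    _ = 4 := blk_card hN i

lemma good_prob {t : ℝ} (ht : 0 ≤ t) {ι : Type*} [Fintype ι] [DecidableEq ι] (S : Finset ι)
    (hS : S.card ≤ 4) (good : Finset (ι → Bool))
    (hg : ∀ b, b ∈ good ↔ ∀ e ∈ S, b e = true) :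
    Real.exp (-t) ^ 4 ≤ ∑ b ∈ good, (Measure.pi (fun _ : ι => bern t)).real {b} := by
  have : Fact (0 ≤ t) := ⟨ht⟩
  rw [sum_measureReal_singleton]
  have e4 : (good : Set (ι → Bool)) =
      Set.univ.pi (fun e => if e ∈ S then {true} else Set.univ) := by
    ext b
    rw [Finset.mem_coe, hg]
    simp only [Set.mem_pi, Set.mem_univ, true_imp_iff]
    constructor
    · intro h e
      by_cases he : e ∈ S
      · simp [he, h e he]
      · simp [he]
    · intro h e he
      simpa [he] using h e
  have e5 : ∀ e : ι, bern t (if e ∈ S then {true} else Set.univ) =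
      ENNReal.ofReal (if e ∈ S then Real.exp (-t) else 1) := by
    intro e
    by_cases he : e ∈ S
    · simp [he, bern]
    · rw [if_neg he, if_neg he]
      simp only [measure_univ, ENNReal.ofReal_one]
  rw [e4, Measure.real, Measure.pi_pi]
  simp_rw [e5]
  rw [← ENNReal.ofReal_prod_of_nonneg (fun e _ => by split_ifs <;> positivity),
    ENNReal.toReal_ofReal (Finset.prod_nonneg fun e _ => by split_ifs <;> positivity),
    Finset.prod_ite_mem, Finset.univ_inter, Finset.prod_const]
  exact pow_le_pow_of_le_one (Real.exp_pos _).le (Real.exp_le_one_iff.2 (by linarith)) hS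

theorem meanDisc_ge {β : ℝ≥0∞} (hβ : β ≠ 0) {t : ℝ} (ht : 0 ≤ t) (hN : 4 ≤ N) :
    (Real.exp (-t) ^ 4 * (1 / 4 * pL (Lb β + 14 * 1024) ^ 4)) ^ 2 ≤
      meanDisc (win N) id β t := by
  classical
  have : Fact (0 ≤ t) := ⟨ht⟩
  have hc₀0 : 0 < 1 / 4 * pL (Lb β + 14 * 1024) ^ 4 := by
    have := pL_pos (Lb β + 14 * 1024); positivity
  generalize hc₀ : 1 / 4 * pL (Lb β + 14 * 1024) ^ 4 = c₀ at hc₀0
  have hc0 : 0 < Real.exp (-t) ^ 4 * c₀ := by positivity
  have hQ1 := sum_real_singleton_univ (Measure.pi (fun _ : (win N).edges => bern t))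
  -- lower bound for each site
  have hsite : ∀ i : Fin N, Real.exp (-t) ^ 4 * c₀ ≤ ∑ b : (win N).edges → Bool,
      (Measure.pi (fun _ : (win N).edges => bern t)).real {b} *
        ∫ J, ∫ J', mag (win N) id β i J *
        mag (win N) id β i (sl b J J') ∂(disorder (win N)) ∂(disorder (win N)) := by
    intro i
    have hgood := good_prob ht (Finset.univ.filter (fun e : (win N).edges => inS (blk i) i e.1))
      (inS_card hN i _ fun e he => (Finset.mem_filter.1 he).2)
      (Finset.univ.filter (fun b : (win N).edges → Bool => ∀ e ∈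
        (Finset.univ.filter (fun e : (win N).edges => inS (blk i) i e.1)), b e = true))
      (fun b => by simp)
    refine (mul_le_mul_of_nonneg_right hgood hc₀0.le).trans ?_
    rw [Finset.sum_mul]
    refine le_trans (Finset.sum_le_sum fun b hbg => mul_le_mul_of_nonneg_left ?_
      measureReal_nonneg) (Finset.sum_le_univ_sum_of_nonneg fun b =>
          mul_nonneg measureReal_nonneg (disc_site_nonneg β i b))
    rw [← hc₀]
    refine disc_site hβ hN i b fun e he => ?_
    exact (Finset.mem_filter.1 hbg).2 e (Finset.mem_filter.2 ⟨Finset.mem_univ _, he⟩)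
  rw [meanDisc_eq (win N) β ht]
  have h1 := arith_c hN hc0 _ hsite
  refine h1.trans ?_
  generalize Real.exp (-t) ^ 4 * c₀ = c
  have h2 : ∀ b : (win N).edges → Bool, _ := fun b =>
    mean_lower (win N) β (sl b) (measurable_sl b) c
  have h3 := Finset.sum_le_sum (s := Finset.univ) fun b (_ : b ∈ Finset.univ) =>
    mul_le_mul_of_nonneg_left (h2 b)
      (measureReal_nonneg (μ := Measure.pi (fun _ : (win N).edges => bern t)) (s := {b}))
  refine le_trans (le_of_eq ?_) h3
  simp_rw [mul_sub]
  rw [Finset.sum_sub_distrib, ← Finset.sum_mul, hQ1, one_mul, Finset.sum_comm]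
  congr 1
  rw [Finset.mul_sum, Finset.mul_sum]
  refine Finset.sum_congr rfl fun b _ => ?_
  rw [← Finset.mul_sum]; ring

end means

end Pool.Agent.Lib.MP_f93cde_pr
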